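import Pool.Agent.H724.DL.Stm

/-! Final assembly from the statements. -/

set_option autoImplicit false

namespace Pool.Agent.H724.DL

variable {Γ W : Type}

/-- The step function over `Fin k`. -/
noncomputable def gk (R : RS Γ W) {k : ℕ} (e : (Bool × Pay Γ) ≃ Fin k) (f : Bool) (s : Core Γ W) (a : Fin k) :
    Option (Core Γ W × Act) := cstep R f s (e.symm a)

theorem gstep_eq (R : RS Γ W) {k : ℕ} (e : (Bool × Pay Γ) ≃ Fin k) (n : ℕ)
    (s : Option (Core Γ W × Fin (n + 2))) (a : Fin k) :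
    gstep (gk R e) n s a = fstep R n s (e.symm a) := rfl

theorem foldl_none {α σ : Type} (f : Option σ → α → Option σ) (hf : ∀ a, f none a = none)
    (w : List α) : w.foldl f none = none := by
  induction w with
  | nil => rfl
  | cons a w ih => simp [hf a, ih]

theorem foldl_map_symm (R : RS Γ W) {k : ℕ} (e : (Bool × Pay Γ) ≃ Fin k) (n : ℕ)
    (s : Option (Core Γ W × Fin (n + 2))) (w : List (Bool × Pay Γ)) :
    (w.map e).foldl (gstep (gk R e) n) s = w.foldl (fstep R n) s := by
  induction w generalizing s with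
  | nil => rfl
  | cons a w ih => simp [gstep_eq, ih]

theorem pre_map {α β : Type} (g : α → β) (X : ℕ → α) (n : ℕ) :
    pre (fun i => g (X i)) n = (pre X n).map g := by
  simp [pre]

theorem av_iff (R : RS Γ W) {k : ℕ} (e : (Bool × Pay Γ) ≃ Fin k) (n : ℕ)
    (s : Option (Core Γ W × Fin (n + 2))) (U V : ℕ → Fin k)
    (h : Av (gstep (gk R e) n) s U V) :
    Av (fstep R n) s (fun i => e.symm (U i)) (fun i => e.symm (V i)) := by
  intro a b w hw
  have h1 := hw.map e
  rw [pre_map e.symm, pre_map e.symm] at h1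
  simp only [List.map_map, Equiv.self_comp_symm, List.map_id] at h1
  have := h a b _ h1
  rwa [foldl_map_symm] at this

theorem av_iff' (R : RS Γ W) {k : ℕ} (e : (Bool × Pay Γ) ≃ Fin k) (n : ℕ)
    (s : Option (Core Γ W × Fin (n + 2))) (U V : ℕ → Bool × Pay Γ)
    (h : Av (fstep R n) s U V) :
    Av (gstep (gk R e) n) s (fun i => e (U i)) (fun i => e (V i)) := by
  intro a b w hw
  have h1 := hw.map e.symm
  rw [pre_map e, pre_map e] at h1
  simp only [List.map_map, Equiv.symm_comp_self, List.map_id] at h1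
  have := h a b _ h1
  rw [← foldl_map_symm R e] at this
  simpa using this

/-- Decomposability of the language of the automaton is equivalent to the failure of the tiling. -/
theorem decomp_iff (hA : S_A) (hB : S_B) (hC : S_C) (hE1 : S_E1) (hE2 : S_E2) (hS : S_STEP)
    (hP : S_PER) (hT : S_TIL) (hN : S_NF) [Finite Γ] [Finite W] (R : RS Γ W) {k : ℕ}
    (e : (Bool × Pay Γ) ≃ Fin k) (n : ℕ) :
    Decomp {w : List (Fin k) | w.foldl (gstep (gk R e) n) (some (core0, 0)) = none} ↔
      ¬ Tiled R n := by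
  have habs : ∀ a, gstep (gk R e) n none a = none := fun a => rfl
  constructor
  · intro hd ht
    obtain ⟨X, Y, hI⟩ := hN Γ W R n ht
    have hav := av_iff' R e n _ _ _ (hE2 Γ W R n X Y hI)
    obtain ⟨n1, p1, n2, p2, hp1, hp2, h⟩ := hB (Fin k) _ hd
      (by
        intro w hw z
        simp only [Set.mem_setOf_eq, List.foldl_append] at hw ⊢
        rw [hw, foldl_none _ habs]) _ _ hav
    have hav2 : Av (gstep (gk R e) n) (some (core0, 0))
        (fun i => e (false, X (if i < n1 then i else n1 + (i - n1) % p1)))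
        (fun i => e (true, Y (if i < n2 then i else n2 + (i - n2) % p2))) := h
    have hav3 := av_iff R e n _ _ _ hav2
    simp only [Equiv.symm_apply_apply] at hav3
    obtain ⟨X', Y', hI', h1 | h1⟩ := hE1 Γ W R n _ _ _ hav3
    · obtain ⟨al, be, N, hs⟩ := hS Γ W R n X' Y' hI'
      obtain ⟨i, hi, hne⟩ := hP Γ X' (fun m => ⟨al m, N m, (hs m).1⟩) p1 n1 hp1
      apply hne
      have e1 := h1.1 i
      have e2 := h1.1 (i + p1)
      simp only [Prod.mk.injEq, true_and] at e1 e2
      rw [← e1, ← e2, if_neg (by omega), if_neg (by omega)]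
      congr 1
      rw [show i + p1 - n1 = i - n1 + p1 by omega, Nat.add_mod_right]
    · have := h1.1 0
      simp at this
  · intro ht
    by_contra hd
    have hno : ∀ X Y, ¬ Imm R n X Y := fun X Y hI => ht (hT Γ W R n X Y hI)
    have hbad : ∀ T : ℕ, ∃ (s : Core Γ W × Fin (n + 2)) (u v : List (Fin k)), T ≤ u.length ∧
        T ≤ v.length ∧ ∀ w, Sh w u v → w.foldl (gstep (gk R e) n) (some s) ≠ none := by
      intro T
      by_contra hc
      push Not at hc
      exact hd (hA (Fin k) (Core Γ W × Fin (n + 2)) _ habs _ T hc)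
    obtain ⟨s, U, V, hav⟩ := hC (Fin k) (Core Γ W × Fin (n + 2)) _ habs hbad
    obtain ⟨X, Y, hI, _⟩ := hE1 Γ W R n _ _ _ (av_iff R e n _ _ _ hav)
    exact hno X Y hI

theorem decomp_frozen {k : ℕ} (K : Set (List (Fin k))) :
    (∃ S : Set (Set (List (Fin k))), S.Finite ∧ K ∈ S ∧
        ∀ L ∈ S,
          (∃ P : Set (Set (List (Fin k)) × Set (List (Fin k))), P ⊆ S ×ˢ S ∧
            {p : List (Fin k) × List (Fin k) | p.1 ++ p.2 ∈ L} =
              ⋃ q ∈ P, q.1 ×ˢ q.2) ∧
          (∃ P : Set (Set (List (Fin k)) × Set (List (Fin k))), P ⊆ S ×ˢ S ∧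
            {p : List (Fin k) × List (Fin k) | ∃ w ∈ L, ∃ l : List (Fin k × Bool),
                l.map Prod.fst = w ∧
                (l.filter (fun x => x.2)).map Prod.fst = p.1 ∧
                (l.filter (fun x => !x.2)).map Prod.fst = p.2} =
              ⋃ q ∈ P, q.1 ×ˢ q.2)) ↔ Decomp K := by
  unfold Decomp FUO
  have h : ∀ L : Set (List (Fin k)), {p : List (Fin k) × List (Fin k) | ∃ w ∈ L, ∃ l : List (Fin k × Bool),
      l.map Prod.fst = w ∧ (l.filter (fun x => x.2)).map Prod.fst = p.1 ∧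
      (l.filter (fun x => !x.2)).map Prod.fst = p.2} =
      {p : List (Fin k) × List (Fin k) | ∃ w ∈ L, Sh w p.1 p.2} := by
    intro L
    ext p
    simp only [Set.mem_setOf_eq]
    constructor
    · rintro ⟨w, hw, h⟩
      exact ⟨w, hw, (sh_iff_list _ _ _).1 h⟩
    · rintro ⟨w, hw, h⟩
      exact ⟨w, hw, (sh_iff_list _ _ _).2 h⟩
  simp only [h]

theorem final (hA : S_A) (hB : S_B) (hC : S_C) (hE1 : S_E1) (hE2 : S_E2) (hS : S_STEP)
    (hP : S_PER) (hT : S_TIL) (hN : S_NF) (hM : S_M) (hK : S_K) :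
    ¬ (∀ k : ℕ, ComputablePred (fun c : List (List ℕ) × List ℕ =>
      ∃ S : Set (Set (List (Fin k))), S.Finite ∧
        {w : List (Fin k) |
            w.foldl (fun q a => (c.1.getD q []).getD (a : ℕ) 0) 0 ∈ c.2} ∈ S ∧
        ∀ L ∈ S,
          (∃ P : Set (Set (List (Fin k)) × Set (List (Fin k))), P ⊆ S ×ˢ S ∧
            {p : List (Fin k) × List (Fin k) | p.1 ++ p.2 ∈ L} =
              ⋃ q ∈ P, q.1 ×ˢ q.2) ∧
          (∃ P : Set (Set (List (Fin k)) × Set (List (Fin k))), P ⊆ S ×ˢ S ∧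
            {p : List (Fin k) × List (Fin k) | ∃ w ∈ L, ∃ l : List (Fin k × Bool),
                l.map Prod.fst = w ∧
                (l.filter (fun x => x.2)).map Prod.fst = p.1 ∧
                (l.filter (fun x => !x.2)).map Prod.fst = p.2} =
              ⋃ q ∈ P, q.1 ×ˢ q.2))) := by
  intro h
  obtain ⟨Γ, W, hΓ, hW, R, hun⟩ := hM
  obtain ⟨k, ⟨e⟩⟩ := Finite.exists_equiv_fin (Bool × Pay Γ)
  obtain ⟨code, hcode, hspec⟩ := hK (Core Γ W) core0 k (gk R e)
  apply hun
  have h2 := (h k)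
  have h3 : ComputablePred fun n : ℕ => Decomp {w : List (Fin k) |
      w.foldl (fun q a => ((code n).1.getD q []).getD (a : ℕ) 0) 0 ∈ (code n).2} := by
    obtain ⟨hdec, hc⟩ := h2
    refine ⟨fun n => Classical.propDecidable _, ?_⟩
    have h4 := hc.comp hcode
    refine h4.of_eq ?_
    intro n
    apply Bool.eq_iff_iff.2
    simp only [decide_eq_true_iff]
    exact decomp_frozen _
  refine h3.of_eq ?_
  intro n
  rw [← decomp_iff hA hB hC hE1 hE2 hS hP hT hN R e n]
  have : {w : List (Fin k) | w.foldl (fun q a => ((code n).1.getD q []).getD (a : ℕ) 0) 0 ∈ (code n).2} =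
      {w : List (Fin k) | w.foldl (gstep (gk R e) n) (some (core0, 0)) = none} := by
    ext w
    exact hspec n w
  rw [this]

end Pool.Agent.H724.DL
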