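import Pool.Agent.H724.DL.ShB

/-! Finiteness instances and 5-adic arithmetic. -/

set_option autoImplicit false

namespace Pool.Agent.H724.DL

variable {Γ W : Type}

instance : Finite Act :=
  Finite.of_injective (fun a : Act => match a with | .zero => (0 : Fin 3) | .keep => 1 | .inc => 2)
    (by intro a b h; cases a <;> cases b <;> simp_all)

instance [Finite Γ] : Finite (Pay Γ) :=
  Finite.of_injective (fun p : Pay Γ => (p.ph, p.u, p.pd, p.k))
    (by rintro ⟨a, b, c, d⟩ ⟨a', b', c', d'⟩ h; simp_all)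

instance [Finite W] : Finite (DS W) :=
  Finite.of_injective (β := Fin 6 × ZMod 3 × Finset (ZMod 5) × Finset (ZMod 5) × ZMod 5 × Option W)
    (fun s : DS W => match s with
      | .idle => (0, 0, ∅, ∅, 0, none)
      | .s1 l P Q => (1, l, P, Q, 0, none)
      | .s2 l P Q => (2, l, P, Q, 0, none)
      | .s3 l P Q z w => (3, l, P, Q, z, w)
      | .s4 l P Q => (4, l, P, Q, 0, none)
      | .s5 l P Q z w => (5, l, P, Q, z, w))
    (by intro a b h; cases a <;> cases b <;> simp_all)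

instance [Finite Γ] [Finite W] : Finite (Core Γ W) :=
  Finite.of_injective (fun s : Core Γ W => (s.lx, s.ly, s.pend, s.d))
    (by rintro ⟨a, b, c, d⟩ ⟨a', b', c', d'⟩ h; simp_all)

/-! ## Lowest nonzero digit -/

theorem pow5_pos (m : ℕ) : 0 < 5 ^ m := by positivity

/-- Every positive number has a lowest nonzero digit `r` at some level `l`. -/
theorem exists_low {t : ℕ} (ht : 0 < t) :
    ∃ l r, 0 < r ∧ r < 5 ∧ t % 5 ^ (l + 1) = r * 5 ^ l := by
  obtain ⟨l, q, hq, rfl⟩ := Nat.exists_eq_pow_mul_and_not_dvd ht.ne' 5 (by norm_num)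
  refine ⟨l, q % 5, ?_, Nat.mod_lt _ (by norm_num), ?_⟩
  · exact Nat.pos_of_ne_zero fun h => hq (Nat.dvd_of_mod_eq_zero h)
  · rw [pow_succ, Nat.mul_mod_mul_left, mul_comm]

/-- The level of a number below `5 ^ m` is below `m`. -/
theorem low_lt {t l r m : ℕ} (h0 : 0 < r) (h : t % 5 ^ (l + 1) = r * 5 ^ l) (ht : t < 5 ^ m) : l < m := by
  by_contra hl
  push Not at hl
  have h1 : 5 ^ m ≤ 5 ^ l := Nat.pow_le_pow_right (by norm_num) hl
  have h2 : t % 5 ^ (l + 1) = t := by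
    apply Nat.mod_eq_of_lt
    calc t < 5 ^ m := ht
      _ ≤ 5 ^ l := h1
      _ ≤ 5 ^ (l + 1) := Nat.pow_le_pow_right (by norm_num) (by omega)
  have h3 : 5 ^ l ≤ r * 5 ^ l := Nat.le_mul_of_pos_left _ h0
  omega

/-- Adding a multiple of `5 ^ m` does not change residues modulo `5 ^ (l+1)`, `l < m`. -/
theorem add_mod_low {a t l m : ℕ} (hl : l < m) (ha : a % 5 ^ m = 0) :
    (a + t) % 5 ^ (l + 1) = t % 5 ^ (l + 1) := by
  have : 5 ^ (l + 1) ∣ a :=
    (Nat.pow_dvd_pow 5 (by omega)).trans (Nat.dvd_of_mod_eq_zero ha)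
  obtain ⟨k, rfl⟩ := this
  rw [Nat.mul_add_mod]

/-- Residues modulo a smaller power of 5. -/
theorem mod_pow_le {a b l m : ℕ} (hl : l ≤ m) (h : a % 5 ^ m = b % 5 ^ m) :
    a % 5 ^ l = b % 5 ^ l := by
  have h1 : (5 : ℕ) ^ l ∣ 5 ^ m := Nat.pow_dvd_pow 5 hl
  rw [← Nat.mod_mod_of_dvd a h1, h, Nat.mod_mod_of_dvd b h1]

theorem low_decomp {t l r : ℕ} (h : t % 5 ^ (l + 1) = r * 5 ^ l) :
    t = 5 ^ l * (5 * (t / 5 ^ (l + 1)) + r) := by
  have := Nat.div_add_mod t (5 ^ (l + 1))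
  rw [h, pow_succ] at this
  rw [pow_succ]
  linarith [this]

instance fact5 : Fact (Nat.Prime 5) := ⟨by norm_num⟩

theorem lv_of_low {t l r : ℕ} (h0 : 0 < r) (h5 : r < 5) (h : t % 5 ^ (l + 1) = r * 5 ^ l) :
    lv t = l := by
  have e := low_decomp h
  set q := t / 5 ^ (l + 1)
  rw [lv, e, padicValNat.mul (by positivity) (by omega), padicValNat.prime_pow]
  have : ¬ 5 ∣ 5 * q + r := by omega
  rw [padicValNat.eq_zero_of_not_dvd this]
  rfl

theorem dg_of_low {t l r : ℕ} (h0 : 0 < r) (h5 : r < 5) (h : t % 5 ^ (l + 1) = r * 5 ^ l) :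
    dg t = r := by
  have e := low_decomp h
  rw [dg, lv_of_low h0 h5 h]
  conv_lhs => rw [e]
  rw [Nat.mul_div_cancel_left _ (pow5_pos l)]
  omega

/-- Conversely. -/
theorem low_lv_dg {t : ℕ} (ht : 0 < t) : 0 < dg t ∧ dg t < 5 ∧ t % 5 ^ (lv t + 1) = dg t * 5 ^ lv t := by
  obtain ⟨l, r, h0, h5, h⟩ := exists_low ht
  rw [lv_of_low h0 h5 h, dg_of_low h0 h5 h]
  exact ⟨h0, h5, h⟩

theorem lv_mul_pow (m : ℕ) {A : ℕ} (hA : 0 < A) : lv (5 ^ m * A) = m + lv A := by
  rw [lv, padicValNat.mul (by positivity) hA.ne', padicValNat.prime_pow, lv]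

theorem dg_mul_pow (m : ℕ) {A : ℕ} (hA : 0 < A) : dg (5 ^ m * A) = dg A := by
  rw [dg, lv_mul_pow m hA, pow_add, Nat.mul_div_mul_left _ _ (pow5_pos m), dg]

/-- There are arbitrarily large numbers with a prescribed residue. -/
theorem exists_ge_mod (N a M r : ℕ) (hr : r < M) : ∃ i, N ≤ i ∧ (i + a) % M = r := by
  have hM : 0 < M := by omega
  refine ⟨N + (r + M * (N + a) - (N + a)), by omega, ?_⟩
  have h1 : N + a ≤ M * (N + a) := Nat.le_mul_of_pos_left _ hM
  have : N + (r + M * (N + a) - (N + a)) + a = r + M * (N + a) := by omega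
  rw [this, Nat.add_mul_mod_self_left, Nat.mod_eq_of_lt hr]

/-- `wrun` depends only on the columns read. -/
theorem wrun_congr (R : RS Γ W) (n : ℕ) {lo hi lo' hi' : ℕ → Γ} (m : ℕ)
    (h : ∀ l, l < m → lo l = lo' l ∧ hi l = hi' l) : wrun R n lo hi m = wrun R n lo' hi' m := by
  induction m with
  | zero => rfl
  | succ m ih =>
    simp only [wrun]
    rw [ih fun l hl => h l (by omega), (h m (by omega)).1, (h m (by omega)).2]

theorem Hi.mono {X : ℕ → Pay Γ} {m m' al N : ℕ} (h : Hi X m al N) (hm : m' ≤ m) : Hi X m' al N :=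
  fun l hl => h l (by omega)

theorem Hi.mono_N {X : ℕ → Pay Γ} {m al N N' : ℕ} (h : Hi X m al N) (hN : N ≤ N') : Hi X m al N' :=
  fun l hl r h0 h5 i hi => h l hl r h0 h5 i (by omega)

theorem mem_upd {lam : ZMod 3} {P : Finset (ZMod 5)} {p : ZMod 3 × ZMod 5} {c : ZMod 5} :
    c ∈ upd lam P p ↔ c - 1 ∈ P ∧ (c = 0 ∨ p = (lam + 1, c)) := by
  simp [upd]

end Pool.Agent.H724.DL
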