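import Mathlib

/-!
# Decomposable languages: definitions for the undecidability proof (MP_e695f0_lc)

Letters are pairs (side, payload).  The two sides are two tapes `X` (side `false`) and `Y` (side
`true`).  A deterministic automaton reads shuffles of `X` and `Y`; it accepts (state `none`) as soon as
it sees a violation.
-/

set_option autoImplicit false

namespace Pool.Agent.H724.DL

/-! ## Shuffles, decomposability -/

/-- `Sh w u v`: the word `w` is a shuffle of `u` and `v`. -/
inductive Sh {α : Type} : List α → List α → List α → Prop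
  | nil : Sh [] [] []
  | left {w u v : List α} (a : α) : Sh w u v → Sh (a :: w) (a :: u) v
  | right {w u v : List α} (a : α) : Sh w u v → Sh (a :: w) u (a :: v)

/-- `R` is a finite union of products over `S`. -/
def FUO {α : Type} (S : Set (Set (List α))) (R : Set (List α × List α)) : Prop :=
  ∃ P : Set (Set (List α) × Set (List α)), P ⊆ S ×ˢ S ∧ R = ⋃ q ∈ P, q.1 ×ˢ q.2

/-- `K` is decomposable. -/
def Decomp {α : Type} (K : Set (List α)) : Prop :=
  ∃ S : Set (Set (List α)), S.Finite ∧ K ∈ S ∧ ∀ L ∈ S,
    FUO S {p : List α × List α | p.1 ++ p.2 ∈ L} ∧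
    FUO S {p : List α × List α | ∃ w ∈ L, Sh w p.1 p.2}

/-- The first `n` letters of an infinite word. -/
def pre {α : Type} (X : ℕ → α) (n : ℕ) : List α := (List.range n).map X

/-- Reading any shuffle of prefixes of `U` and `V` from the state `s` avoids the state `none`. -/
def Av {α σ : Type} (f : Option σ → α → Option σ) (s : Option σ) (U V : ℕ → α) : Prop :=
  ∀ n m w, Sh w (pre U n) (pre V m) → w.foldl f s ≠ none

/-! ## Row systems and tilings -/

/-- A finite automaton comparing two rows column by column (the Boolean says whether the index of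
the column is the parameter `n`). -/
structure RS (Γ W : Type) where
  w0 : W
  ws : W → Bool → Γ → Γ → W
  bad : W → Bool

variable {Γ W : Type}

/-- The state after the columns `0, ..., l-1`. -/
def wrun (R : RS Γ W) (n : ℕ) (lo hi : ℕ → Γ) : ℕ → W
  | 0 => R.w0
  | l + 1 => R.ws (wrun R n lo hi l) (decide (l = n)) (lo l) (hi l)

/-- The first `m` columns of the rows `lo`, `hi` are compatible. -/
def rowOK (R : RS Γ W) (n m : ℕ) (lo hi : ℕ → Γ) : Prop := R.bad (wrun R n lo hi m) = false

/-- There is a valid infinite triangular array. -/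
def Tiled (R : RS Γ W) (n : ℕ) : Prop :=
  ∃ c : ℕ → ℕ → Γ, ∀ m, rowOK R n m (c m) (c (m + 1))

/-! ## Payloads and the checking automaton `D` on pairs of payloads -/

/-- Payload of a letter: phase mod 5; label and digit; digit of the parent; content. -/
structure Pay (Γ : Type) where
  ph : ZMod 5
  u : ZMod 3 × ZMod 5
  pd : ZMod 5
  k : Γ

/-- States of the checker. -/
inductive DS (W : Type) where
  | idle : DS W
  | s1 : ZMod 3 → Finset (ZMod 5) → Finset (ZMod 5) → DS W
  | s2 : ZMod 3 → Finset (ZMod 5) → Finset (ZMod 5) → DS W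
  | s3 : ZMod 3 → Finset (ZMod 5) → Finset (ZMod 5) → ZMod 5 → Option W → DS W
  | s4 : ZMod 3 → Finset (ZMod 5) → Finset (ZMod 5) → DS W
  | s5 : ZMod 3 → Finset (ZMod 5) → Finset (ZMod 5) → ZMod 5 → Option W → DS W

/-- Actions on the column counter. -/
inductive Act where
  | zero : Act
  | keep : Act
  | inc : Act

/-- The counter takes the values `0, ..., n+1` (saturating). -/
def act (n : ℕ) : Act → Fin (n + 2) → Fin (n + 2)
  | .zero, _ => 0
  | .keep, i => i
  | .inc, i => ⟨min (i.val + 1) (n + 1), by omega⟩

/-- Update of the set of possible classes of the last zero letter, when the next one is `p`. -/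
def upd (lam : ZMod 3) (P : Finset (ZMod 5)) (p : ZMod 3 × ZMod 5) : Finset (ZMod 5) :=
  Finset.univ.filter fun c => c - 1 ∈ P ∧ (c = 0 ∨ p = (lam + 1, c))

/-- Restart. -/
def resync (x y : Pay Γ) : DS W :=
  if x.u.1 = y.u.1 ∧ x.u.2 = 3 ∧ y.u.2 = 1 then .s1 x.u.1 Finset.univ Finset.univ else .idle

/-- Is the (possibly inactive) window bad? -/
def wbad (R : RS Γ W) : Option W → Bool
  | none => false
  | some w => R.bad w

/-- One step of the checker on a visible pair (`x.u ≠ y.u`). -/
def vstep (R : RS Γ W) (s : DS W) (x y : Pay Γ) : Option (DS W) :=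
  match s with
  | .idle => some (resync x y)
  | .s1 lam P Q =>
      if x.u = (lam, 4) ∧ y.u = (lam, 2) then some (.s2 lam P Q) else some (resync x y)
  | .s2 lam P Q =>
      if y.u = (lam, 3) then
        if upd lam P x.u = ∅ then none
        else some (.s3 lam (upd lam P x.u) Q x.u.2
          (if upd lam P x.u = {2} then some R.w0 else none))
      else if x.u = (lam, 1) ∧ y.u = (lam, 4) then
        if upd lam P (lam, 3) = ∅ ∨ x.pd ≠ 3 then none
        else some (.s4 lam (upd lam P (lam, 3)) Q)
      else some (resync x y)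
  | .s3 lam P Q z w =>
      if x.u = (lam, 1) ∧ y.u = (lam, 4) then
        if x.pd ≠ z ∨ wbad R w = true then none else some (.s4 lam P Q)
      else some (resync x y)
  | .s4 lam P Q =>
      if x.u = (lam, 2) then
        if upd lam Q y.u = ∅ then none
        else some (.s5 lam P (upd lam Q y.u) y.u.2
          (if upd lam Q y.u = {3} then some R.w0 else none))
      else if x.u = (lam, 3) ∧ y.u = (lam, 1) then
        if upd lam Q (lam, 2) = ∅ ∨ y.pd ≠ 2 then none
        else some (.s1 lam P (upd lam Q (lam, 2)))
      else some (resync x y)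
  | .s5 lam P Q z w =>
      if x.u = (lam, 3) ∧ y.u = (lam, 1) then
        if y.pd ≠ z ∨ wbad R w = true then none else some (.s1 lam P Q)
      else some (resync x y)

/-- A column token. -/
def IsCol (x y : Pay Γ) : Prop := x.u.2 = 1 ∧ x.pd = 2 ∧ y.pd = 3

instance (x y : Pay Γ) : Decidable (IsCol x y) := by unfold IsCol; infer_instance

/-- One step of the checker on an invisible pair (`x.u = y.u`). -/
def istep (R : RS Γ W) (f : Bool) (s : DS W) (x y : Pay Γ) : DS W × Act :=
  match s with
  | .s3 lam P Q z (some w) =>
      if IsCol x y then (.s3 lam P Q z (some (R.ws w f y.k x.k)), .inc) else (s, .keep)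
  | .s5 lam P Q z (some w) =>
      if IsCol x y then (.s5 lam P Q z (some (R.ws w f x.k y.k)), .inc) else (s, .keep)
  | _ => (s, .keep)

/-- One step of the checker (`none` = violation found). -/
def dstep (R : RS Γ W) (f : Bool) (s : DS W) (x y : Pay Γ) : Option (DS W × Act) :=
  if x.u = y.u then some (istep R f s x y) else (vstep R s x y).map fun d => (d, .zero)

/-- One step of the checker with its counter. -/
def dn (R : RS Γ W) (n : ℕ) (s : Option (DS W × Fin (n + 2))) (x y : Pay Γ) :
    Option (DS W × Fin (n + 2)) :=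
  s.bind fun t => (dstep R (decide (t.2.val = n)) t.1 x y).map fun r => (r.1, act n r.2 t.2)

/-- The checker, started at the positions `i` of `X` and `j` of `Y`, after `t` pairs. -/
def drun (R : RS Γ W) (n : ℕ) (X Y : ℕ → Pay Γ) (i j : ℕ) : ℕ → Option (DS W × Fin (n + 2))
  | 0 => some (.idle, 0)
  | t + 1 => dn R n (drun R n X Y i j t) (X (i + t)) (Y (j + t))

/-! ## The full automaton on letters `Bool × Pay Γ` -/

/-- Control state: last phases on both sides, pending letter of side `false`, checker state. -/
structure Core (Γ W : Type) where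
  lx : Option (ZMod 5)
  ly : Option (ZMod 5)
  pend : Option (Pay Γ)
  d : DS W

/-- Local condition on a letter: letters of nonzero phase have label 0 and digit = phase. -/
def lok (x : Pay Γ) : Prop := x.ph = 0 ∨ x.u = (0, x.ph)

/-- The phase of the new letter is the successor of the last phase. -/
def phok (o : Option (ZMod 5)) (x : Pay Γ) : Prop := ∀ p, o = some p → x.ph = p + 1

open Classical in
/-- Step of the control (`none` = violation). -/
noncomputable def cstep (R : RS Γ W) (f : Bool) (s : Core Γ W) (a : Bool × Pay Γ) :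
    Option (Core Γ W × Act) :=
  match a with
  | (false, x) =>
      if lok x ∧ phok s.lx x then
        match s.pend with
        | none => some (⟨some x.ph, s.ly, some x, s.d⟩, .keep)
        | some _ => some (⟨some x.ph, s.ly, some x, .idle⟩, .zero)
      else none
  | (true, y) =>
      if lok y ∧ phok s.ly y then
        match s.pend with
        | some x => (dstep R f s.d x y).map fun r => (⟨s.lx, some y.ph, none, r.1⟩, r.2)
        | none => some (⟨s.lx, some y.ph, none, .idle⟩, .zero)
      else none

/-- Step of the full automaton; the state `none` is absorbing. -/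
noncomputable def fstep (R : RS Γ W) (n : ℕ) (s : Option (Core Γ W × Fin (n + 2)))
    (a : Bool × Pay Γ) : Option (Core Γ W × Fin (n + 2)) :=
  s.bind fun t => (cstep R (decide (t.2.val = n)) t.1 a).map fun r => (r.1, act n r.2 t.2)

/-- Initial state. -/
def core0 : Core Γ W := ⟨none, none, none, .idle⟩

/-- A pair of infinite words on which the checker never finds a violation. -/
structure Imm (R : RS Γ W) (n : ℕ) (X Y : ℕ → Pay Γ) : Prop where
  phx : ∀ i, (X (i + 1)).ph = (X i).ph + 1
  phy : ∀ i, (Y (i + 1)).ph = (Y i).ph + 1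
  lx : ∀ i, lok (X i)
  ly : ∀ i, lok (Y i)
  nf : ∀ i j t, drun R n X Y i j t ≠ none

/-! ## Hierarchical structure -/

/-- From the index `N` on, the letters of `X` at levels `≤ m` are those of the address `i + al`. -/
def Hi (X : ℕ → Pay Γ) (m al N : ℕ) : Prop :=
  ∀ l, l ≤ m → ∀ r : ℕ, 0 < r → r < 5 → ∀ i, N ≤ i → (i + al) % 5 ^ (l + 1) = r * 5 ^ l →
    (X i).u = ((l : ZMod 3), (r : ZMod 5))

/-- The window automaton on the `t` pairs following the positions `i`, `j`
(`g = false`: the low row is on `Y`; `g = true`: the low row is on `X`). -/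
def wwin (R : RS Γ W) (n : ℕ) (g : Bool) (X Y : ℕ → Pay Γ) (i j : ℕ) : ℕ → W × Fin (n + 2)
  | 0 => (R.w0, 0)
  | t + 1 =>
      if IsCol (X (i + (t + 1))) (Y (j + (t + 1))) then
        (R.ws (wwin R n g X Y i j t).1 (decide ((wwin R n g X Y i j t).2.val = n))
            (if g then (X (i + (t + 1))).k else (Y (j + (t + 1))).k)
            (if g then (Y (j + (t + 1))).k else (X (i + (t + 1))).k),
          act n .inc (wwin R n g X Y i j t).2)
      else wwin R n g X Y i j t

/-- Sequence of class sets. -/
def pset (lam : ZMod 3) (p : ℕ → ZMod 3 × ZMod 5) : ℕ → Finset (ZMod 5)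
  | 0 => Finset.univ
  | k + 1 => upd lam (pset lam p k) (p k)

/-! ## The canonical word -/

/-- Level (5-adic valuation). -/
def lv (a : ℕ) : ℕ := padicValNat 5 a

/-- Lowest nonzero digit. -/
def dg (a : ℕ) : ℕ := (a / 5 ^ lv a) % 5

/-- Parent: remove the lowest nonzero digit. -/
def pr (a : ℕ) : ℕ := a - dg a * 5 ^ lv a

/-- Canonical payload at the address `a ≥ 1`. -/
def can (c : ℕ → ℕ → Γ) (a : ℕ) : Pay Γ where
  ph := (a : ZMod 5)
  u := ((lv a : ZMod 3), (dg a : ZMod 5))
  pd := if pr a = 0 then 0 else (dg (pr a) : ZMod 5)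
  k := if pr a = 0 then c 0 0 else c (lv (pr a)) (lv a)

end Pool.Agent.H724.DL
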