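import Pool.Agent.H724.DL.Stm
import Pool.Graph.R_pool_sql_team_39128cda.Lib.helper21_.Mach

/-!
# The row system of a counter machine

`CM` is the library's counter machine: in the state `q` the register `reg q` is compared with `0`
(or with the parameter `n` if `ld q`), the test is `t = decide (value ≤ threshold)`; the next state is
`nxt q t` (`none` = halt) and the register is incremented / decremented / left unchanged according to
`eff q t` (never decremented if `t = true`, field `nodec`).  `M.it n j` is the configuration after `j` steps,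
from `(start, 0)`.

Row `m ≥ 2` of the array encodes the configuration `(q, s) = M.it n (m-2)`:
column `l < m` has the letter `(q, fun p => decide (l < s (reg p)))`.
-/

set_option autoImplicit false

namespace Pool.Agent.H724.DL

open Pool.Agent.Lib.helper21.Mach

variable {Q : Type}

/-- Letters: state, and for every state `p` the bit of the register `reg p`. -/
abbrev Gm (Q : Type) : Type := Q × (Q → Bool)

/-- States of the row comparator: number of columns (saturating at 3), first column, previous
column, low letter in the column `n`, violation flags under the assumption test = t. -/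
structure Wm (Q : Type) where
  cnt : Fin 4
  fst : Option (Gm Q × Gm Q)
  prv : Option (Gm Q × Gm Q)
  nb : Option (Gm Q)
  vio : Bool → Bool

/-- Compatibility of the registers in two consecutive columns (or in the first column, `prv = none`). -/
def regOK (M : CM Q) (t : Bool) (prv : Option (Gm Q × Gm Q)) (lo hi : Gm Q) (p : Q) : Prop :=
  if M.reg p = M.reg lo.1 then
    match M.eff lo.1 t, prv with
    | none, _ => hi.2 p = lo.2 p
    | some true, none => hi.2 p = true
    | some true, some x => hi.2 p = x.1.2 p
    | some false, none => True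
    | some false, some x => x.2.2 p = lo.2 p
  else hi.2 p = lo.2 p

/-- The column is compatible with the previous one, under the assumption test = t. -/
def colOK (M : CM Q) (t : Bool) (prv : Option (Gm Q × Gm Q)) (lo hi : Gm Q) : Prop :=
  (match prv with
    | none => M.nxt lo.1 t = some hi.1
    | some x => lo.1 = x.1.1 ∧ hi.1 = x.2.1 ∧ (∀ p, lo.2 p = true → x.1.2 p = true) ∧
        (∀ p, hi.2 p = true → x.2.2 p = true)) ∧
  ∀ p, regOK M t prv lo hi p

/-- The test read off from the first column and the column `n`. -/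
def tsw (M : CM Q) (w : Wm Q) : Bool :=
  match w.fst with
  | none => true
  | some x => if M.ld x.1.1 then (match w.nb with | none => true | some y => !(y.2 x.1.1))
      else !(x.1.2 x.1.1)

open Classical in
/-- The row system. -/
noncomputable def rs (M : CM Q) : RS (Gm Q) (Wm Q) where
  w0 := ⟨0, none, none, none, fun _ => false⟩
  ws w f lo hi :=
    ⟨if w.cnt = 3 then 3 else w.cnt + 1, some (w.fst.getD (lo, hi)), some (lo, hi),
      if f then some lo else w.nb, fun t => w.vio t || !(decide (colOK M t w.prv lo hi))⟩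
  bad w := decide (2 ≤ w.cnt.val) &&
    (w.vio (tsw M w) || (decide (w.cnt.val = 2) &&
      !(decide (w.fst.map Prod.fst = some (M.start, fun _ => false)))))

/-- The test read off from the low row `lo` of length `m`. -/
def tst' (M : CM Q) (n m : ℕ) (lo : ℕ → Gm Q) : Bool :=
  if M.ld (lo 0).1 then (if n < m then !((lo n).2 (lo 0).1) else true) else !((lo 0).2 (lo 0).1)

/-- What a good comparison of rows of length `m ≥ 2` means. -/
def RowP (M : CM Q) (n m : ℕ) (lo hi : ℕ → Gm Q) : Prop :=
  (m = 2 → lo 0 = (M.start, fun _ => false)) ∧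
  M.nxt (lo 0).1 (tst' M n m lo) = some (hi 0).1 ∧
  (∀ l, l < m → (lo l).1 = (lo 0).1 ∧ (hi l).1 = (hi 0).1) ∧
  (∀ l, l + 1 < m → ∀ p, ((lo (l + 1)).2 p = true → (lo l).2 p = true) ∧
    ((hi (l + 1)).2 p = true → (hi l).2 p = true)) ∧
  ∀ p, (M.reg p = M.reg (lo 0).1 →
      (M.eff (lo 0).1 (tst' M n m lo) = none → ∀ l, l < m → (hi l).2 p = (lo l).2 p) ∧
      (M.eff (lo 0).1 (tst' M n m lo) = some true → (hi 0).2 p = true ∧
        ∀ l, l + 1 < m → (hi (l + 1)).2 p = (lo l).2 p) ∧
      (M.eff (lo 0).1 (tst' M n m lo) = some false →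
        ∀ l, l + 1 < m → (hi l).2 p = (lo (l + 1)).2 p)) ∧
    (M.reg p ≠ M.reg (lo 0).1 → ∀ l, l < m → (hi l).2 p = (lo l).2 p)

/-- **DL-M0.** Meaning of the comparator.

PROOF.  By induction on `m`, the state `wrun (rs M) n lo hi m` is: `cnt = min m 3`, `fst = some (lo 0, hi 0)` if `m > 0`,
`prv = some (lo (m-1), hi (m-1))` if `m > 0`, `nb = some (lo n)` if `n < m`, `none` otherwise, and
`vio t = false ↔ ∀ l < m, colOK M t (if l = 0 then none else some (lo (l-1), hi (l-1))) (lo l) (hi l)`.
`m < 2`: `bad = false` since `cnt < 2`.  `m ≥ 2`: `tsw = tst'`; unfold the conditions `colOK` for all `l < m`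
(the states `(lo l).1`, `(hi l).1` are constant along the rows, so `eff (lo l).1 t = eff (lo 0).1 t`). -/
def S_M0 : Prop :=
  ∀ (Q : Type) (M : CM Q) (n m : ℕ) (lo hi : ℕ → Gm Q),
    (m < 2 → rowOK (rs M) n m lo hi) ∧ (2 ≤ m → (rowOK (rs M) n m lo hi ↔ RowP M n m lo hi))

/-- **DL-M1** (uses `S_M0`). A valid array forces the machine to run forever.

PROOF.  Let `c` be a valid array.  Claim: for every `m ≥ 2` there is `(q, s)` with `M.it n (m-2) = some (q, s)`, `s r ≤ m - 2`
for all `r` and `c m l = (q, fun p => decide (l < s (M.reg p)))` for all `l < m`.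
`m = 2`: `RowP` for `m = 2`: `c 2 0 = (start, false)`, and `c 2 1` has the same state and, by monotonicity of the bits, all
bits `false`; `M.it n 0 = some (start, 0)`.
Step `m → m+1`: `RowP M n m (c m) (c (m+1))`.  `tst' = M.tst n (q, s)`: if `ld q`: threshold `n`; if `n < m` the bit
`decide (n < s (reg q))` is read, so `tst' = decide (s (reg q) ≤ n)`; if `m ≤ n` then `s (reg q) ≤ m - 2 ≤ n`, both are
`true`.  If not `ld q`: `tst' = !decide (0 < s (reg q)) = decide (s (reg q) ≤ 0)`.  So `M.nxt q t = some q'` with
`q' = (c (m+1) 0).1`, hence `M.it n (m-1) = some (q', s')`, `s' = app (M.eff q t) (M.reg q) s`, `s' r ≤ m - 1`.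
Columns `l < m` of row `m+1`: `(c (m+1) l).1 = q'`, and the bits: if `reg p ≠ reg q`: `s' (reg p) = s (reg p)`, bits equal.
If `reg p = reg q` and `eff = none`: the same.  `eff = some true`: `s' = s + 1`: bit `0` is `true`, bit `l+1` is
`decide (l < s) = decide (l + 1 < s + 1)`.  `eff = some false`: then `t = false` (`nodec`), so `0 < s (reg q)`, `s' = s - 1`:
for `l + 1 < m`: bit `l` is `decide (l + 1 < s) = decide (l < s - 1)`; for `l = m - 1`: by monotonicity from `l = m-2`
(`m ≥ 2`): bit `m-2` is `decide (m-1 < s) = false`, so bit `m-1` is `false`, and `decide (m-1 < s-1) = false`.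
Column `l = m` of row `m+1`: use `RowP M n (m+1) (c (m+1)) (c (m+2))`: the state is the same as in column `0`, and
the bits are monotone: bit `m-1` is `decide (m-1 < s' r) = false` because `s' r ≤ m-1`; so bit `m` is `false`. -/
def S_M1 : Prop :=
  ∀ (Q : Type) (M : CM Q) (n : ℕ), Tiled (rs M) n → ∀ j, M.it n j ≠ none

/-- **DL-M2** (uses `S_M0`). If the machine runs forever, there is a valid array.

PROOF.  Let `M.it n j = some (q j, s j)`; `s j r ≤ j`.  Let
`c m l = (q (m-2), fun p => decide (l < s (m-2) (M.reg p)))` (natural subtraction, so rows `0, 1` are equal to row `2`).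
`m < 2`: first part of M0.  `m ≥ 2`, `j = m-2`: `RowP M n m (c m) (c (m+1))`: `m = 2`: `q 0 = start`, `s 0 = 0`.
`tst' = M.tst n (q j, s j)` as in M1 (`s j r ≤ m - 2`), so `M.nxt (q j) t = some (q (j+1))` by `CM.it_succ`, and
`s (j+1) = app ..`; the bit conditions are verified as in M1. -/
def S_M2 : Prop :=
  ∀ (Q : Type) (M : CM Q) (n : ℕ), (∀ j, M.it n j ≠ none) → Tiled (rs M) n

theorem s_m (h1 : S_M1) (h2 : S_M2) : S_M := by
  obtain ⟨Q, hQ, M, hM⟩ := exists_cm
  have hW : Finite (Wm Q) := Finite.of_injective
    (fun w : Wm Q => (w.cnt, w.fst, w.prv, w.nb, w.vio))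
    (by rintro ⟨a, b, c, d, e⟩ ⟨a', b', c', d', e'⟩ h; simp_all)
  refine ⟨Gm Q, Wm Q, inferInstance, hW, rs M, fun h => hM (h.of_eq fun n => ?_)⟩
  constructor
  · intro h
    by_contra hc
    push Not at hc
    exact h (h2 Q M n hc)
  · rintro ⟨j, hj⟩ ht
    exact h1 Q M n ht j hj

end Pool.Agent.H724.DL
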