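import Pool.Agent.H724.DL.Defs

/-! Basic lemmas on shuffles. -/

set_option autoImplicit false

namespace Pool.Agent.H724.DL

variable {α : Type}

namespace Sh

theorem symm {w u v : List α} (h : Sh w u v) : Sh w v u := by
  induction h with
  | nil => exact .nil
  | left a _ ih => exact .right a ih
  | right a _ ih => exact .left a ih

theorem comm {w u v : List α} : Sh w u v ↔ Sh w v u := ⟨symm, symm⟩

theorem nil_right (u : List α) : Sh u u [] := by
  induction u with
  | nil => exact .nil
  | cons a u ih => exact .left a ih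

theorem nil_left (u : List α) : Sh u [] u := (nil_right u).symm

theorem append {w u v w' u' v' : List α} (h : Sh w u v) (h' : Sh w' u' v') :
    Sh (w ++ w') (u ++ u') (v ++ v') := by
  induction h with
  | nil => exact h'
  | left a _ ih => exact .left a ih
  | right a _ ih => exact .right a ih

theorem concat (u v : List α) : Sh (u ++ v) u v := by
  simpa using (nil_right u).append (nil_left v)

theorem concat' (u v : List α) : Sh (v ++ u) u v := (concat v u).symm

theorem length_eq {w u v : List α} (h : Sh w u v) : w.length = u.length + v.length := by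
  induction h with
  | nil => rfl
  | left a _ ih => simp only [List.length_cons, ih]; omega
  | right a _ ih => simp only [List.length_cons, ih]; omega

theorem nil_iff {w : List α} {u v : List α} (h : Sh w u v) (hw : w = []) : u = [] ∧ v = [] := by
  subst hw
  have := h.length_eq
  simp only [List.length_nil] at this
  exact ⟨List.length_eq_zero_iff.1 (by omega), List.length_eq_zero_iff.1 (by omega)⟩

/-- Splitting a shuffle at a factorisation of the left word. -/
theorem split_left {w u v : List α} (h : Sh w u v) : ∀ p q, u = p ++ q →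
    ∃ w1 w2 v1 v2, w = w1 ++ w2 ∧ v = v1 ++ v2 ∧ Sh w1 p v1 ∧ Sh w2 q v2 := by
  induction h with
  | nil =>
    intro p q h
    obtain ⟨rfl, rfl⟩ : p = [] ∧ q = [] := by simpa using h.symm
    exact ⟨[], [], [], [], rfl, rfl, .nil, .nil⟩
  | @left w u v a hh ih =>
    intro p q h
    cases p with
    | nil =>
      simp only [List.nil_append] at h
      subst h
      exact ⟨[], a :: w, [], v, rfl, rfl, .nil, .left a hh⟩
    | cons b p =>
      simp only [List.cons_append, List.cons.injEq] at h
      obtain ⟨rfl, h⟩ := h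
      obtain ⟨w1, w2, v1, v2, rfl, rfl, h1, h2⟩ := ih p q h
      exact ⟨a :: w1, w2, v1, v2, rfl, rfl, .left a h1, h2⟩
  | @right w u v a hh ih =>
    intro p q h
    obtain ⟨w1, w2, v1, v2, rfl, rfl, h1, h2⟩ := ih p q h
    exact ⟨a :: w1, w2, a :: v1, v2, rfl, rfl, .right a h1, h2⟩

theorem split_left_iff {w p q v : List α} : Sh w (p ++ q) v ↔
    ∃ w1 w2 v1 v2, w = w1 ++ w2 ∧ v = v1 ++ v2 ∧ Sh w1 p v1 ∧ Sh w2 q v2 := by
  constructor
  · intro h
    exact h.split_left p q rfl
  · rintro ⟨w1, w2, v1, v2, rfl, rfl, h1, h2⟩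
    exact h1.append h2

/-- Splitting a shuffle at a factorisation of the shuffled word. -/
theorem split {w u v : List α} (h : Sh w u v) : ∀ p q, w = p ++ q →
    ∃ u1 u2 v1 v2, u = u1 ++ u2 ∧ v = v1 ++ v2 ∧ Sh p u1 v1 ∧ Sh q u2 v2 := by
  induction h with
  | nil =>
    intro p q h
    obtain ⟨rfl, rfl⟩ : p = [] ∧ q = [] := by simpa using h.symm
    exact ⟨[], [], [], [], rfl, rfl, .nil, .nil⟩
  | @left w u v a hh ih =>
    intro p q h
    cases p with
    | nil =>
      simp only [List.nil_append] at h
      subst h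
      exact ⟨[], a :: u, [], v, rfl, rfl, .nil, .left a hh⟩
    | cons b p =>
      simp only [List.cons_append, List.cons.injEq] at h
      obtain ⟨rfl, h⟩ := h
      obtain ⟨u1, u2, v1, v2, rfl, rfl, h1, h2⟩ := ih p q h
      exact ⟨a :: u1, u2, v1, v2, rfl, rfl, .left a h1, h2⟩
  | @right w u v a hh ih =>
    intro p q h
    cases p with
    | nil =>
      simp only [List.nil_append] at h
      subst h
      exact ⟨[], u, [], a :: v, rfl, rfl, .nil, .right a hh⟩
    | cons b p =>
      simp only [List.cons_append, List.cons.injEq] at h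
      obtain ⟨rfl, h⟩ := h
      obtain ⟨u1, u2, v1, v2, rfl, rfl, h1, h2⟩ := ih p q h
      exact ⟨u1, u2, a :: v1, v2, rfl, rfl, .right a h1, h2⟩

/-- Associativity. -/
theorem assoc {w' w v : List α} (h' : Sh w' w v) : ∀ {x y : List α}, Sh w x y →
    ∃ z, Sh z x v ∧ Sh w' z y := by
  induction h' with
  | nil =>
    intro x y h
    obtain ⟨rfl, rfl⟩ := h.nil_iff rfl
    exact ⟨[], .nil, .nil⟩
  | @left w' w v a h' ih =>
    intro x y h
    cases h with
    | left _ h =>
      obtain ⟨z, h1, h2⟩ := ih h
      exact ⟨a :: z, .left a h1, .left a h2⟩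
    | right _ h =>
      obtain ⟨z, h1, h2⟩ := ih h
      exact ⟨z, h1, .right a h2⟩
  | @right w' w v a h' ih =>
    intro x y h
    obtain ⟨z, h1, h2⟩ := ih h
    exact ⟨a :: z, .right a h1, .left a h2⟩

theorem assoc_iff {w' x y v : List α} :
    (∃ w, Sh w x y ∧ Sh w' w v) ↔ ∃ z, Sh z x v ∧ Sh w' z y := by
  constructor
  · rintro ⟨w, h, h'⟩
    exact assoc (x := x) (y := y) h' h
  · rintro ⟨z, h, h'⟩
    exact assoc (x := x) (y := v) h' h

theorem map {β : Type} (f : α → β) {w u v : List α} (h : Sh w u v) :
    Sh (w.map f) (u.map f) (v.map f) := by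
  induction h with
  | nil => exact .nil
  | left a _ ih => exact .left (f a) ih
  | right a _ ih => exact .right (f a) ih

end Sh

/-- The shuffles in the form used by the frozen statement. -/
theorem sh_iff_list (w u v : List α) :
    (∃ l : List (α × Bool), l.map Prod.fst = w ∧ (l.filter (fun x => x.2)).map Prod.fst = u ∧
      (l.filter (fun x => !x.2)).map Prod.fst = v) ↔ Sh w u v := by
  constructor
  · rintro ⟨l, rfl, rfl, rfl⟩
    induction l with
    | nil => exact .nil
    | cons x l ih =>
      obtain ⟨a, b⟩ := x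
      cases b
      · simpa using Sh.right a ih
      · simpa using Sh.left a ih
  · intro h
    induction h with
    | nil => exact ⟨[], rfl, rfl, rfl⟩
    | left a _ ih =>
      obtain ⟨l, rfl, rfl, rfl⟩ := ih
      exact ⟨(a, true) :: l, rfl, by simp, by simp⟩
    | right a _ ih =>
      obtain ⟨l, rfl, rfl, rfl⟩ := ih
      exact ⟨(a, false) :: l, rfl, by simp, by simp⟩

end Pool.Agent.H724.DL
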