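import Pool.Agent.H724.DL.Basic

/-!
# Statements (interfaces) of the proof that decomposability of regular languages is undecidable

Every `S_X : Prop` below is one sub-task; a complete paper proof is in its docstring.
Basic lemmas about shuffles are in `ShB.lean` (`Sh.symm`, `Sh.append`, `Sh.concat`, `Sh.split_left`,
`Sh.split`, `Sh.assoc_iff`, `Sh.map`, `sh_iff_list`, `Sh.length_eq`), finiteness instances and the
arithmetic of `lv`, `dg`, `pr` are in `Basic.lean`.
-/

set_option autoImplicit false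

namespace Pool.Agent.H724.DL

/-! ## A. Decomposability and shuffles of long words (abstract automata) -/

/-- **DL-A.** Let `f` be a finite deterministic automaton with absorbing accepting state `none`, such that
from every state `s : σ` and for all words `u, v` of length `≥ T` some shuffle of `u` and `v` leads to
`none`.  Then the recognised language `K = {w | w.foldl f s0 = none}` is decomposable.

PROOF.  For `s : Option σ` and `t : Option σ` let `L s t = {w | w.foldl f s = t ∨ w.foldl f s = none}`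
(so `K = L s0 none`; all `s` including `none` allowed, `L none t = univ`), and for a word `v` let
`D v L = {u | ∃ w ∈ L, Sh w u v}` and let `G j = {u | j ≤ u.length}`.
Take `S = {D v (L s t) | v, s, t} ∪ {{x} | x.length < T} ∪ {G j | j ≤ T}`.
* `K = D [] (L s0 none) ∈ S` (only shuffle of `u` with `[]` is `u`).
* `S` is finite.  (Words of length `< T` over a finite alphabet: finite, `List.finite_length_lt`.)
  If `T ≤ v.length` then `G T ⊆ D v (L s t)`: for `s = some s'` use the hypothesis with `u, v`; for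
  `s = none` use `Sh.concat`.  So `D v (L s t)` is one of finitely many sets: either `v.length < T`
  (finitely many `v, s, t`), or it is a set `E` with `G T ⊆ E`, and there are finitely many of those
  (`E ↦ E ∩ {u | u.length < T}` is injective on them, the subsets of a finite set are finitely many).
* sequential: `{(p,q) | p ++ q ∈ D v (L s t)} = ⋃ over r : Option σ and v = v1 ++ v2 of
  D v1 (L s r) ×ˢ D v2 (L r t)` by `Sh.split_left_iff`, and `w1 ++ w2 ∈ L s t ↔ ∃ r, w1 ∈ L s r ∧ w2 ∈ L r t`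
  (`→`: `r = w1.foldl f s`; `←`: `none` is absorbing: `w.foldl f none = none`).
  `{(p,q) | p ++ q ∈ {x}} = ⋃ over x = p ++ q of {p} ×ˢ {q}`.
  `{(p,q) | p ++ q ∈ G j} = (⋃ over p.length < j of {p} ×ˢ G (j - p.length)) ∪ G j ×ˢ G 0`.
* parallel: `{(x,y) | ∃ w ∈ D v (L s t), Sh w x y}
   = (⋃ over x0.length < T, z with Sh z x0 v, of {x0} ×ˢ D z (L s t))
   ∪ (⋃ over y0.length < T, z with Sh z y0 v, of D z (L s t) ×ˢ {y0}) ∪ G T ×ˢ G T`.
  Indeed by associativity (`Sh.assoc_iff`): `(∃ w, Sh w x y ∧ Sh w' w v) ↔ ∃ z, Sh z x v ∧ Sh w' z y`, which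
  (with `Sh.symm`) gives the first two families exactly for `x = x0`, `y = y0`; and if both lengths are
  `≥ T`, take `w` a shuffle of `x, y` leading from `s` to `none` (hypothesis; if `s = none` any shuffle)
  and `w' = w ++ v`, a shuffle of `w` and `v` in `L s t`.
  `{(p,q) | ∃ w ∈ {x}, Sh w p q} = ⋃ over (p,q) with Sh x p q of {p} ×ˢ {q}` (lengths `≤ x.length < T`).
  `{(p,q) | ∃ w ∈ G j, Sh w p q} = {(p,q) | j ≤ p.length + q.length}` as for the sequential case
  (`Sh.length_eq`, `Sh.concat`).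
In each case the witness `P : Set (Set _ × Set _)` is the set of the pairs listed; it is `⊆ S ×ˢ S`. -/
def S_A : Prop :=
  ∀ (α σ : Type) [Finite α] [Finite σ] (f : Option σ → α → Option σ) (_ : ∀ a, f none a = none)
    (s0 : Option σ) (T : ℕ)
    (_ : ∀ (s : σ) (u v : List α), T ≤ u.length → T ≤ v.length →
      ∃ w, Sh w u v ∧ w.foldl f (some s) = none),
    Decomp {w : List α | w.foldl f s0 = none}

/-- `L s t` of the proof of DL-A. -/
def Lg {α σ : Type} (f : Option σ → α → Option σ) (s t : Option σ) : Set (List α) :=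
  {w | w.foldl f s = t ∨ w.foldl f s = none}

/-- `D v L` of the proof of DL-A. -/
def Dv {α : Type} (v : List α) (L : Set (List α)) : Set (List α) := {u | ∃ w ∈ L, Sh w u v}

/-- `G j` of the proof of DL-A. -/
def Gj (α : Type) (j : ℕ) : Set (List α) := {u | j ≤ u.length}

/-- The system `S` of the proof of DL-A. -/
def SysA {α σ : Type} (f : Option σ → α → Option σ) (T : ℕ) : Set (Set (List α)) :=
  {E | (∃ v s t, E = Dv v (Lg f s t)) ∨ (∃ x : List α, x.length < T ∧ E = {x}) ∨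
    ∃ j, j ≤ T ∧ E = Gj α j}

/-- **DL-A1.** Finiteness of the system (see the proof of DL-A). -/
def S_A1 : Prop :=
  ∀ (α σ : Type) [Finite α] [Finite σ] (f : Option σ → α → Option σ) (_ : ∀ a, f none a = none)
    (T : ℕ) (_ : ∀ (s : σ) (u v : List α), T ≤ u.length → T ≤ v.length →
      ∃ w, Sh w u v ∧ w.foldl f (some s) = none),
    (SysA f T).Finite

/-- **DL-A2.** Sequential decompositions (see the proof of DL-A; no hypothesis on long words needed). -/
def S_A2 : Prop :=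
  ∀ (α σ : Type) (f : Option σ → α → Option σ) (_ : ∀ a, f none a = none) (T : ℕ),
    ∀ L ∈ SysA f T, FUO (SysA f T) {p : List α × List α | p.1 ++ p.2 ∈ L}

/-- **DL-A3.** Parallel decompositions (see the proof of DL-A). -/
def S_A3 : Prop :=
  ∀ (α σ : Type) (f : Option σ → α → Option σ) (_ : ∀ a, f none a = none)
    (T : ℕ) (_ : ∀ (s : σ) (u v : List α), T ≤ u.length → T ≤ v.length →
      ∃ w, Sh w u v ∧ w.foldl f (some s) = none),
    ∀ L ∈ SysA f T, FUO (SysA f T) {p : List α × List α | ∃ w ∈ L, Sh w p.1 p.2}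

theorem a_of (h1 : S_A1) (h2 : S_A2) (h3 : S_A3) : S_A := by
  intro α σ _ _ f hf s0 T h
  refine ⟨SysA f T, h1 α σ f hf T h, Or.inl ⟨[], s0, none, ?_⟩, fun L hL =>
    ⟨h2 α σ f hf T L hL, h3 α σ f hf T h L hL⟩⟩
  ext u
  constructor
  · intro hu
    exact ⟨u, Or.inl hu, Sh.nil_right u⟩
  · rintro ⟨w, hw, hs⟩
    have : w = u := by
      clear hw
      generalize hv : ([] : List α) = v at hs
      induction hs with
      | nil => rfl
      | left a _ ih => rw [ih hv]
      | right a _ ih => cases hv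
    subst this
    simpa [Lg] using hw

/-- **DL-B.** If `K` is decomposable and a right ideal, and all shuffles of prefixes of `X` and `Y` are
outside `K`, then the same holds for some eventually periodic words obtained from `X` and `Y`.

PROOF.  Let `S` be the finite system, `K ∈ S`.  For a word `x` put `th x = {L ∈ S | x ∈ L}`.
(1) `th x = th x' → th (x ++ z) = th (x' ++ z)`: for `L ∈ S` write `{(p,q) | p ++ q ∈ L} = ⋃ q ∈ P, q.1 ×ˢ q.2` with
`P ⊆ S ×ˢ S`; `x ++ z ∈ L ↔ ∃ (A,B) ∈ P, x ∈ A ∧ z ∈ B`, and `x ∈ A ↔ x' ∈ A` as `A ∈ S`.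
(2) Whether `∃ w ∈ K, Sh w x y` depends only on `th x` and `th y` (parallel decomposition of `K`).
(3) `S` is finite, so `k ↦ th (pre X k)` takes finitely many values: there are `n1` and `p1 > 0` with
`th (pre X n1) = th (pre X (n1 + p1))` (`Set.Finite.powerset`, `Finite.exists_ne_map_eq_of_infinite`).
Let `X' i = X (if i < n1 then i else n1 + (i - n1) % p1)`.  By (1) and induction on `k`:
`th (pre X' (n1 + k * p1)) = th (pre X n1)`, because `pre X' (n1 + (k+1) * p1) = pre X' (n1 + k*p1) ++ z` with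
`pre X (n1 + p1) = pre X n1 ++ z`.  The same for `Y`: `n2, p2, Y'`.
(4) For all `k l`, no shuffle of `pre X' (n1 + k*p1)` and `pre Y' (n2 + l*p2)` is in `K`, by (2) and the
hypothesis for `n1, n2`.  For arbitrary `n, m`: `pre X' n` is a prefix of `pre X' (n1 + n*p1)`, etc., and if
a shuffle `w` of `pre X' n`, `pre Y' m` were in `K`, then `w ++ z` (`z` = concatenation of the two
remaining parts) would be a shuffle of the longer words in `K` (`Sh.append`, `Sh.concat`, right ideal). -/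
def S_B : Prop :=
  ∀ (α : Type) [Finite α] (K : Set (List α)) (_ : Decomp K) (_ : ∀ w ∈ K, ∀ z, w ++ z ∈ K)
    (X Y : ℕ → α) (_ : ∀ n m w, Sh w (pre X n) (pre Y m) → w ∉ K),
    ∃ n1 p1 n2 p2 : ℕ, 0 < p1 ∧ 0 < p2 ∧
      ∀ n m w, Sh w (pre (fun i => X (if i < n1 then i else n1 + (i - n1) % p1)) n)
        (pre (fun i => Y (if i < n2 then i else n2 + (i - n2) % p2)) m) → w ∉ K

/-- **DL-C.** Compactness.

PROOF.  If `u, v` have length `≥ T` and no shuffle of `u, v` leads from `some s` to `none`, then the same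
is true for `u.take T`, `v.take T` (if `w` is a shuffle of the prefixes with `w.foldl f (some s) = none`, then `w ++ z`
with `z` = rest of `u` ++ rest of `v` is a shuffle of `u`, `v` (`Sh.append`, `Sh.concat`) and still leads
to `none`).  So for every `T` there are a state `s_T` and words of length exactly `T`.  Pigeonhole: one
state `s` works for infinitely many `T`, hence (take prefixes again) for all `T`.  For `T` let
`C T = {F : ℕ → α × α | no shuffle of pre (fst ∘ F) T and pre (snd ∘ F) T leads from s to none}`.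
It is nonempty (`α` is nonempty if some word of length 1 exists), decreasing in `T`, and closed in the
compact space `ℕ → α × α` (product of finite discrete spaces: give `α` the discrete topology
`⊥`, `Finite.compactSpace`, `Pi.compactSpace`; `C T` depends on finitely many coordinates only, so it is clopen), so the
intersection is nonempty (`IsCompact.nonempty_iInter_of_sequence_nonempty_isCompact_isClosed`).
Take `U = fst ∘ F`, `V = snd ∘ F`; for `n, m` use `T = max n m` and prefixes once more. -/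
def S_C : Prop :=
  ∀ (α σ : Type) [Finite α] [Finite σ] (f : Option σ → α → Option σ) (_ : ∀ a, f none a = none)
    (_ : ∀ T : ℕ, ∃ (s : σ) (u v : List α), T ≤ u.length ∧ T ≤ v.length ∧
      ∀ w, Sh w u v → w.foldl f (some s) ≠ none),
    ∃ (s : σ) (U V : ℕ → α), Av f (some s) U V

/-! ## E. From the automaton to the checker -/

/-- **DL-E1.** If reading all shuffles of prefixes of `U`, `V` from `s` avoids `none`, then one of them lies
on side `false` (the tape `X`), the other one on side `true` (after dropping two letters: the tape `Y`),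
and `(X, Y)` is immortal.

PROOF.  Write `s = some (c, i)`.
(1) `U` and `V` do not both contain a letter of side `false`: let `U i0`, `V j0` be the first such letters.
Then the words `w1 = pre U i0 ++ pre V j0 ++ [U i0, V j0]` and `w2 = pre U i0 ++ pre V j0 ++ [V j0, U i0]` are shuffles of
`pre U (i0+1)` and `pre V (j0+1)`.  As none of them leads to `none`, `phok` for the last letter gives
`(V j0).2.ph = (U i0).2.ph + 1` and `(U i0).2.ph = (V j0).2.ph + 1`, so `2 = 0` in `ZMod 5`, a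
contradiction.  (After reading a letter of side `false` with payload `x` the field `lx` is `some x.ph`, and
it is not changed by letters of side `true`.)  The same for side `true`.
(2) Hence either all letters of `U` are on side `false` and all of `V` on side `true`, or conversely (if
`U` has a letter of side `false`, then `V` has none, so all letters of `V` are of side `true`, so `U` has
none of side `true`.  If `U` has no letter of side `false` then `V` has no letter of side `true`).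
Since `Sh` is symmetric (`Sh.symm`), we may exchange `U` and `V`: assume the first case and put
`U i = (false, X i)`, `V j = (true, Y' j)`, `Y j = Y' (j+2)`.
(3) `phx`, `lx`: read `pre U (i+2)` (a shuffle with `pre V 0 = []`): all steps are defined, so `lok` and
`phok` hold at every step, with `lx = some (X i).ph` when `X (i+1)` is read.  The same for `Y`.
(4) `nf`: for `i j t` let `w = pre U i ++ pre V (j+2) ++ [U i, V (j+2), U (i+1), V (j+3), ..., U (i+t-1), V (j+2+t-1)]`,
a shuffle of `pre U (i+t)` and `pre V (j+2+t)`.  After `pre U i ++ pre V (j+2)` the state is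
`some (⟨_, _, none, .idle⟩, 0)`: the last two letters read are of side `true`; after the first of them
`pend = none`; the second one is read with `pend = none` and resets `d := idle` and the counter to `0`.
Then two letters `U (i+t), V (j+2+t)` (side `false` with payload `x = X (i+t)`, then side `true` with
payload `y = Y (j+t)`) with `pend = none` before change `(d, counter)` by `dn R n _ x y`
(the letter `x` is stored with action `keep`, then `dstep`), and `pend = none` again afterwards.  So after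
`t` such pairs the checker component is `drun R n X Y i j t`; it is not `none` since the state is not. -/
def S_E1 : Prop :=
  ∀ (Γ W : Type) (R : RS Γ W) (n : ℕ) (s : Option (Core Γ W × Fin (n + 2)))
    (U V : ℕ → Bool × Pay Γ), Av (fstep R n) s U V →
    ∃ X Y : ℕ → Pay Γ, Imm R n X Y ∧
      (((∀ i, U i = (false, X i)) ∧ ∀ j, V j = (true, (V j).2) ∧ V (j + 2) = (true, Y j)) ∨
       ((∀ i, V i = (false, X i)) ∧ ∀ j, U j = (true, (U j).2) ∧ U (j + 2) = (true, Y j)))

/-- **DL-E1a** = (1), (2) of the proof of DL-E1. -/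
def S_E1a : Prop :=
  ∀ (Γ W : Type) (R : RS Γ W) (n : ℕ) (s : Option (Core Γ W × Fin (n + 2)))
    (U V : ℕ → Bool × Pay Γ), Av (fstep R n) s U V →
    ((∀ i, (U i).1 = false) ∧ ∀ j, (V j).1 = true) ∨ ((∀ i, (V i).1 = false) ∧ ∀ j, (U j).1 = true)

/-- **DL-E1b** = (3) of the proof of DL-E1. -/
def S_E1b : Prop :=
  ∀ (Γ W : Type) (R : RS Γ W) (n : ℕ) (s : Option (Core Γ W × Fin (n + 2)))
    (X Y : ℕ → Pay Γ), Av (fstep R n) s (fun i => (false, X i)) (fun j => (true, Y j)) →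
    ∀ i, (X (i + 1)).ph = (X i).ph + 1 ∧ (Y (i + 1)).ph = (Y i).ph + 1 ∧ lok (X i) ∧ lok (Y i)

/-- **DL-E1c** = (4) of the proof of DL-E1. -/
def S_E1c : Prop :=
  ∀ (Γ W : Type) (R : RS Γ W) (n : ℕ) (s : Option (Core Γ W × Fin (n + 2)))
    (X Y : ℕ → Pay Γ), Av (fstep R n) s (fun i => (false, X i)) (fun j => (true, Y j)) →
    ∀ i j t, drun R n X (fun j => Y (j + 2)) i j t ≠ none

theorem Av.symm {α σ : Type} {f : Option σ → α → Option σ} {s : Option σ} {U V : ℕ → α}
    (h : Av f s U V) : Av f s V U := fun n m w hw => h m n w hw.symm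

theorem e1_of (ha : S_E1a) (hb : S_E1b) (hc : S_E1c) : S_E1 := by
  intro Γ W R n s U V h
  have key : ∀ U V : ℕ → Bool × Pay Γ, Av (fstep R n) s U V → (∀ i, (U i).1 = false) →
      (∀ j, (V j).1 = true) → Imm R n (fun i => (U i).2) (fun j => (V (j + 2)).2) := by
    intro U V h hU hV
    have eU : U = fun i => (false, (U i).2) := by
      funext i; rw [← hU i]
    have eV : V = fun i => (true, (V i).2) := by
      funext i; rw [← hV i]
    have h' : Av (fstep R n) s (fun i => (false, (U i).2)) (fun j => (true, (V j).2)) := by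
      rw [← eU, ← eV]; exact h
    have h1 := hb Γ W R n s _ _ h'
    exact ⟨fun i => (h1 i).1, fun i => (h1 (i + 2)).2.1, fun i => (h1 i).2.2.1,
      fun i => (h1 (i + 2)).2.2.2, hc Γ W R n s _ _ h'⟩
  rcases ha Γ W R n s U V h with ⟨hU, hV⟩ | ⟨hV, hU⟩
  · refine ⟨_, _, key U V h hU hV, Or.inl ⟨fun i => ?_, fun j => ⟨?_, ?_⟩⟩⟩
    · rw [← hU i]
    · rw [← hV j]
    · rw [← hV (j + 2)]
  · refine ⟨_, _, key V U h.symm hV hU, Or.inr ⟨fun i => ?_, fun j => ⟨?_, ?_⟩⟩⟩
    · rw [← hV i]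
    · rw [← hU j]
    · rw [← hU (j + 2)]

/-- **DL-E2.** If `(X, Y)` is immortal, then reading all shuffles of prefixes from the initial state
avoids `none`.

PROOF.  Invariant, proved by induction on the shuffle extended on the right (use `Sh.split` to remove the
last letter, or prove by induction on the length of `w`: if `Sh (w ++ [a]) (pre U n) (pre V m)` then either
`a = U (n-1)` and `Sh w (pre U (n-1)) (pre V m)`, or `a = V (m-1)` and `Sh w (pre U n) (pre V (m-1))`):
after reading a shuffle of `pre X n` and `pre Y m` (letters `(false, X i)`, `(true, Y j)`) the state is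
`some (c, i)` with `c.lx = none` if `n = 0`, `c.lx = some (X (n-1)).ph` if `n > 0`; the same for `ly`, `m`, `Y`; and there
are `i' j' t` such that `drun R n X Y i' j' t = some (c.d, i)`, `j' + t = m`, and either
`c.pend = none` and `i' + t = n`, or `c.pend = some (X (n-1))`, `0 < n` and `i' + t = n - 1`.
Steps: side `false` letter `X n`: `lok` and `phok` hold by `Imm`; if `pend = none` it becomes pending, with action
`keep`: `i' + t = n = (n+1) - 1`.  If `pend = some _`: `d := idle`, counter `0`, `pend = some (X n)`: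
take `t = 0`, `i' = n`, `j' = m`.  Side `true` letter `Y m`: if `pend = some (X (n-1))`: the checker reads the pair
`(X (i'+t), Y (j'+t)) = (X (n-1), Y m)`; by `nf` for `t+1` the result is not `none`.
If `pend = none`: reset: take `t = 0`, `i' = n`, `j' = m + 1`. -/
def S_E2 : Prop :=
  ∀ (Γ W : Type) (R : RS Γ W) (n : ℕ) (X Y : ℕ → Pay Γ), Imm R n X Y →
    Av (fstep R n) (some (core0, 0)) (fun i => (false, X i)) (fun j => (true, Y j))

/-! ## F. The forced structure -/

/-- **DL-F0.** Level 0.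

PROOF.  Let `al = (X 0).ph.val`.  By `phx`: `(X i).ph = (i : ZMod 5) + (X 0).ph = ((i + al : ℕ) : ZMod 5)`.  If
`0 < r < 5` and `(i + al) % 5 ^ 1 = r * 5 ^ 0`, then `(X i).ph = (r : ZMod 5) ≠ 0`, so `lok` gives
`(X i).u = (0, r)`, and `((0 : ℕ) : ZMod 3) = 0`. -/
def S_F0 : Prop :=
  ∀ (Γ W : Type) (R : RS Γ W) (n : ℕ) (X Y : ℕ → Pay Γ), Imm R n X Y →
    ∃ al be, Hi X 0 al 0 ∧ Hi Y 0 be 0

/-- No active window. -/
def noWin {W : Type} : DS W → Prop
  | .s3 _ _ _ _ (some _) => False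
  | .s5 _ _ _ _ (some _) => False
  | _ => True

/-- **DL-SEG.** Quiet segments: while all pairs are invisible, a state without active window does not
change, and an active window follows `wwin`.

PROOF.  Induction on `s`, by the definitions of `dn`, `dstep` (first branch), `istep`, `wwin`. -/
def S_SEG : Prop :=
  ∀ (Γ W : Type) (R : RS Γ W) (n : ℕ) (X Y : ℕ → Pay Γ) (i j t s : ℕ),
    ((∀ t', t ≤ t' → t' < t + s → (X (i + t')).u = (Y (j + t')).u) →
      ∀ d c, drun R n X Y i j t = some (d, c) → noWin d →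
        drun R n X Y i j (t + s) = some (d, c)) ∧
    ((∀ t', t < t' → t' ≤ t + s → (X (i + t')).u = (Y (j + t')).u) → ∀ lam P Q z,
      (drun R n X Y i j (t + 1) = some (.s3 lam P Q z (some R.w0), 0) →
        drun R n X Y i j (t + 1 + s) =
          some (.s3 lam P Q z (some (wwin R n false X Y (i + t) (j + t) s).1),
            (wwin R n false X Y (i + t) (j + t) s).2)) ∧
      (drun R n X Y i j (t + 1) = some (.s5 lam P Q z (some R.w0), 0) →
        drun R n X Y i j (t + 1 + s) =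
          some (.s5 lam P Q z (some (wwin R n true X Y (i + t) (j + t) s).1),
            (wwin R n true X Y (i + t) (j + t) s).2)))

/-- **DL-LET.** Letters at the positions of the synchronised run (facts (a), (b) of the proof of DL-LOCK).

PROOF.  (a) `t' % 5^(l+1) = r * 5^l` (`exists_low`), `l < m` (`low_lt`), `(i0 + al + k*5^(m+1) + s*5^m) % 5^m = 0`
(as `(i0+al) % 5^(m+1) = 3*5^m`), so `(i0 + k*5^(m+1) + s*5^m + t' + al) % 5^(l+1) = r*5^l` (`add_mod_low`); use `Hi X`.
The same for `Y`.  (b) `(i0 + k*5^(m+1) + s*5^m + al) % 5^(m+1) = ((3+s) % 5) * 5^m`; use `Hi X` with `l = m`. -/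
def S_LET : Prop :=
  ∀ (Γ : Type) (X Y : ℕ → Pay Γ) (m al be N i0 j0 : ℕ), Hi X m al N → Hi Y m be N → N ≤ i0 → N ≤ j0 →
    (i0 + al) % 5 ^ (m + 1) = 3 * 5 ^ m → (j0 + be) % 5 ^ (m + 1) = 5 ^ m → ∀ k s : ℕ,
    (∀ t', 0 < t' → t' < 5 ^ m → (X (i0 + (k * 5 ^ (m + 1) + s * 5 ^ m + t'))).u =
      (Y (j0 + (k * 5 ^ (m + 1) + s * 5 ^ m + t'))).u) ∧
    ((3 + s) % 5 ≠ 0 → (X (i0 + (k * 5 ^ (m + 1) + s * 5 ^ m))).u =
      ((m : ZMod 3), ((3 + s : ℕ) : ZMod 5))) ∧
    ((1 + s) % 5 ≠ 0 → (Y (j0 + (k * 5 ^ (m + 1) + s * 5 ^ m))).u =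
      ((m : ZMod 3), ((1 + s : ℕ) : ZMod 5)))

/-- **DL-LOCK.** The synchronised run of the checker (the heart of the matter).

Setting: `X`, `Y` have the right letters at the levels `≤ m`; the checker is started at positions `i0`, `j0` whose
level-`m` digits are `3` and `1`.  Let `tau = 5^m`, `T = 5^(m+1) = 5 * tau`, `lam = m`.  Then the digits at level `m` of the
positions `i0 + k*T + s*tau`, `j0 + k*T + s*tau` (`s = 0, ..., 4`) are `(3,1), (4,2), (0,3), (1,4), (2,0)`, and at the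
positions in between the letters `u` of `X` and `Y` agree (levels `< m`, same level and digit on both sides).
`p k = (X (i0+k*T+2*tau)).u` is the letter of `X` at the time of digits `(0,3)`, `q k = (Y (j0+k*T+4*tau)).u` the letter
of `Y` at the time of digits `(2,0)`.

PROOF.  Facts: (a) for `0 < t' < tau` and any `s`, `k`: `(X (i0+k*T+s*tau+t')).u = (Y (j0+k*T+s*tau+t')).u`: write
`t' % 5^(l+1) = r * 5^l` with `0 < r < 5`, `l < m` (lowest nonzero digit of `t'`); since
`i0 + k*T + s*tau + al` is a multiple of `5^m`, also `(i0+k*T+s*tau+t'+al) % 5^(l+1) = r*5^l`; use `Hi X`, `Hi Y`.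
(b) `(X (i0+k*T+s*tau)).u = (lam, 3+s mod 5)` if `s ≠ 2`, `(Y (j0+k*T+s*tau)).u = (lam, 1+s)` if `s ≠ 4` (for `s < 5`; use `Hi` with
`l = m`).
Induction on `k` for the first claim `drun (k*T+1) = some (s1 lam (pset p k) (pset q k), 0)`:
`k = 0`: one step from `idle` with the pair `(lam,3), (lam,1)`: visible, `resync` gives `s1 lam univ univ`.
Step: from `s1 lam P Q` (`P = pset p k`, `Q = pset q k`) at time `k*T+1` (pairs `0..k*T` processed):
pairs `k*T + t'`, `0 < t' < tau`, are invisible, state `s1` unchanged (`istep` keeps it, counter kept: `0`).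
Pair `k*T+tau`: `(lam,4),(lam,2)` → `s2 lam P Q`.  Quiet until pair `k*T+2*tau`: letters `p k` and `(lam,3)`.
 Case `p k ≠ (lam,3)`: visible; `vstep` in `s2`: `y.u = (lam,3)`; since the run never returns `none`,
 `upd lam P (p k) ≠ ∅`, new state `s3 lam (upd lam P (p k)) Q (p k).2 w` with `w = some R.w0` if `upd.. = {2}`, else `none`;
 counter `0`.  Between `k*T+2*tau` and `k*T+3*tau` all pairs are invisible: the window component follows `wwin R n false`:
 after `t'` further pairs the state is `(s3 .. (some (wwin R n false X Y (i0+k*T+2*tau) (j0+k*T+2*tau) t').1), (wwin ..).2)`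
 (resp. unchanged if `w = none`).  Pair `k*T+3*tau`: `(lam,1),(lam,4)`: not `none` gives `x.pd = (p k).2` and
 the window is not bad: the claims on `pd` and on `wwin false`; state `s4 lam (pset p (k+1)) Q`.
 Case `p k = (lam,3)`: invisible (equal letters), state `s2 lam P Q` unchanged until pair `k*T+3*tau` with letters
 `(lam,1),(lam,4)`: `y.u ≠ (lam,3)`, second branch: not `none` gives `upd lam P (lam,3) ≠ ∅` and `x.pd = 3 = (p k).2`;
 state `s4 lam (pset p (k+1)) Q`.  Here `pset p (k+1) = upd lam P (lam,3) ≠ {2}` as `2 ∈ upd lam P (lam,3)` would need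
 `(lam,3) = (lam+1,2)`.
Then quiet until pair `k*T+4*tau`: letters `(lam,2)`, `q k`: visible iff `q k ≠ (lam,2)`; the same analysis with
`s5`, `wwin true`, `Y`, `pd` of `Y (j0+k*T+5*tau)`, and pair `(k+1)*T`: `(lam,3),(lam,1)` → `s1 lam (pset p (k+1)) (pset q (k+1))`.
Useful sub-lemmas (prove them first): quiet segments do not change states without active window and counter;
`s3`/`s5` with active window `some R.w0` and counter `0` follow `wwin` on quiet segments. -/
def S_LOCK : Prop :=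
  ∀ (Γ W : Type) (R : RS Γ W) (n : ℕ) (X Y : ℕ → Pay Γ) (m al be N i0 j0 : ℕ),
    (∀ t, drun R n X Y i0 j0 t ≠ none) → Hi X m al N → Hi Y m be N → N ≤ i0 → N ≤ j0 →
    (i0 + al) % 5 ^ (m + 1) = 3 * 5 ^ m → (j0 + be) % 5 ^ (m + 1) = 5 ^ m →
    ∀ (p q : ℕ → ZMod 3 × ZMod 5), (∀ k, p k = (X (i0 + k * 5 ^ (m + 1) + 2 * 5 ^ m)).u) →
      (∀ k, q k = (Y (j0 + k * 5 ^ (m + 1) + 4 * 5 ^ m)).u) → ∀ k,
      drun R n X Y i0 j0 (k * 5 ^ (m + 1) + 1) =
        some (.s1 (m : ZMod 3) (pset m p k) (pset m q k), 0) ∧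
      pset m p (k + 1) ≠ ∅ ∧ pset m q (k + 1) ≠ ∅ ∧
      (X (i0 + k * 5 ^ (m + 1) + 3 * 5 ^ m)).pd = (p k).2 ∧
      (Y (j0 + k * 5 ^ (m + 1) + 5 * 5 ^ m)).pd = (q k).2 ∧
      (pset m p (k + 1) = {2} →
        R.bad (wwin R n false X Y (i0 + k * 5 ^ (m + 1) + 2 * 5 ^ m)
          (j0 + k * 5 ^ (m + 1) + 2 * 5 ^ m) (5 ^ m - 1)).1 = false) ∧
      (pset m q (k + 1) = {3} →
        R.bad (wwin R n true X Y (i0 + k * 5 ^ (m + 1) + 4 * 5 ^ m)
          (j0 + k * 5 ^ (m + 1) + 4 * 5 ^ m) (5 ^ m - 1)).1 = false)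

/-- **DL-PAT.** The pattern of the zero letters.

PROOF.  `c ∈ pset lam p (k+1) ↔ c - 1 ∈ pset lam p k ∧ (c = 0 ∨ p k = (lam+1, c))`.  Let
`A k = {c0 : ZMod 5 | c0 + k ∈ pset lam p k}`.  Then `A (k+1) ⊆ A k` and all `A k` are nonempty; `ZMod 5` is finite, so
some `c0` is in all `A k` (otherwise for every `c0` there is `k c0` with `c0 ∉ A (k c0)`; take the maximum).
`c0 + (k+1) ∈ pset lam p (k+1)` gives `c0 + k + 1 = 0 ∨ p k = (lam+1, c0 + k + 1)`.  Take `c = (c0 + 1).val`. -/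
def S_PAT : Prop :=
  ∀ (lam : ZMod 3) (p : ℕ → ZMod 3 × ZMod 5), (∀ k, pset lam p k ≠ ∅) →
    ∃ c : ℕ, ∀ k, ((c + k : ℕ) : ZMod 5) ≠ 0 → p k = (lam + 1, ((c + k : ℕ) : ZMod 5))

/-- **DL-STEP** (uses `S_LOCK`, `S_PAT`, `S_F0` as hypotheses). The structure at all levels.

PROOF.  One step, from `m` to `m+1`: choose `i0, j0 ≥ N` with `(i0 + al) % 5^(m+1) = 3*5^m`,
`(j0 + be) % 5^(m+1) = 5^m`.  By LOCK the sets `pset m p k` are all nonempty (`k = 0`: `univ`), by PAT there
is `c` with `p k = (m+1, c+k)` whenever `c + k ≢ 0 mod 5`.  `i0 + 2*5^m + al` is a multiple of `5^(m+1)`, say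
`5^(m+1) * M`.  Let `al' = al + ((c + 4*M) % 5) * 5^(m+1)`, so that `i0 + 2*5^m + al' + k*5^(m+1) ≡ (c+k) * 5^(m+1) mod 5^(m+2)`.
`Hi X (m+1) al' (i0 + 2*5^m)`: for `l ≤ m` the residues of `i + al'` and `i + al` mod `5^(l+1)` agree, use `Hi X m`;
for `l = m+1`: `(i + al') % 5^(m+2) = r * 5^(m+1)` implies `5^(m+1) ∣ i + al'`, so `i = i0 + 2*5^m + k*5^(m+1)` for some `k`, and
`(c + k) % 5 = r`, so `(X i).u = p k = (m+1, r)`.  The same for `Y` with `q`, `j0 + 4*5^m + be ≡ 0`.
Then build the sequences by recursion (`Nat.rec` on a sigma type / `exists_seq`-style choice), start with F0. -/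
def S_STEP : Prop :=
  ∀ (Γ W : Type) (R : RS Γ W) (n : ℕ) (X Y : ℕ → Pay Γ), Imm R n X Y →
    ∃ al be N : ℕ → ℕ, ∀ m, Hi X m (al m) (N m) ∧ Hi Y m (be m) (N m) ∧
      al (m + 1) % 5 ^ (m + 1) = al m % 5 ^ (m + 1) ∧ be (m + 1) % 5 ^ (m + 1) = be m % 5 ^ (m + 1)

/-- **DL-STEP1** (uses `S_LOCK`, `S_PAT`). One step, see the proof of DL-STEP. -/
def S_STEP1 : Prop :=
  ∀ (Γ W : Type) (R : RS Γ W) (n : ℕ) (X Y : ℕ → Pay Γ) (m al be N : ℕ), Imm R n X Y →
    Hi X m al N → Hi Y m be N → ∃ al' be' N', Hi X (m + 1) al' N' ∧ Hi Y (m + 1) be' N' ∧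
      al' % 5 ^ (m + 1) = al % 5 ^ (m + 1) ∧ be' % 5 ^ (m + 1) = be % 5 ^ (m + 1)

/-- **DL-PER.** Words with the hierarchical structure are not eventually periodic.

PROOF.  Let `l = lv p` (5-adic valuation), `p = 5^l * p'`, `5 ∤ p'`.  Take `al N` with `Hi X l al N`.  Choose
`r ∈ {1,2,3,4}` with `(r + p') % 5 ≠ 0` and `i ≥ max n0 N` with `(i + al) % 5^(l+1) = r * 5^l`.  Then
`(i + p + al) % 5^(l+1) = ((r + p') % 5) * 5^l`, so `(X i).u = (l, r)`, `(X (i+p)).u = (l, (r+p')%5)`, different. -/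
def S_PER : Prop :=
  ∀ (Γ : Type) (X : ℕ → Pay Γ), (∀ m, ∃ al N, Hi X m al N) →
    ∀ p n0 : ℕ, 0 < p → ∃ i, n0 ≤ i ∧ X (i + p) ≠ X i

/-- **DL-COL.** The window automaton sees exactly the columns `l = 0, ..., m-1`, at the times `5^l`.

PROOF.  For `0 < t < 5^m` let `t % 5^(l+1) = r * 5^l`, `0 < r < 5` (lowest nonzero digit), `l < m`.
If `r ≠ 1` then `(X (i1+t)).u.2 = r ≠ 1`: no column.  If `r = 1`: `(X (i1+t)).pd = (X (i1+t-5^l)).u.2` and
`(Y (j1+t)).pd = (Y (j1+t-5^l)).u.2`.  If `t = 5^l`, these are `2` and `3`: column, with contents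
`(X (i1+5^l)).k`, `(Y (j1+5^l)).k`.  If `t ≠ 5^l`, then `t' = t - 5^l` satisfies `0 < t' < 5^m` and
`(X (i1+t')).u = (Y (j1+t')).u` by `hu`, so not `(2, 3)`: no column.
So for `l < m`: `wwin (5^(l+1) - 1) = wwin (5^l)` and `wwin (5^l)` = column step applied to `wwin (5^l - 1)`.  By induction on
`l ≤ m`: `wwin (5^l - 1) = (wrun R n lo hi l, min l (n+1))` (`(wwin ..).2.val = min l (n+1)`, and
`min l (n+1) = n ↔ l = n`). -/
def S_COL : Prop :=
  ∀ (Γ W : Type) (R : RS Γ W) (n : ℕ) (g : Bool) (X Y : ℕ → Pay Γ) (m i1 j1 : ℕ),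
    (∀ t, 0 < t → t < 5 ^ m → ∀ l r : ℕ, 0 < r → r < 5 → t % 5 ^ (l + 1) = r * 5 ^ l →
      (X (i1 + t)).u = ((l : ZMod 3), (r : ZMod 5)) ∧ (Y (j1 + t)).u = ((l : ZMod 3), (r : ZMod 5))) →
    (∀ l, l < m → ∀ t, t < 5 ^ m → t % 5 ^ (l + 1) = 5 ^ l →
      (X (i1 + t)).pd = (X (i1 + t - 5 ^ l)).u.2 ∧ (Y (j1 + t)).pd = (Y (j1 + t - 5 ^ l)).u.2) →
    (X i1).u.2 = 2 → (Y j1).u.2 = 3 →
    (wwin R n g X Y i1 j1 (5 ^ m - 1)).1 =
      wrun R n (fun l => if g then (X (i1 + 5 ^ l)).k else (Y (j1 + 5 ^ l)).k)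
        (fun l => if g then (Y (j1 + 5 ^ l)).k else (X (i1 + 5 ^ l)).k) m

/-- **DL-PD** (uses `S_LOCK`). The digit of the parent at positions of digit 1: item (0) of the proof of DL-ROW. -/
def S_PD : Prop :=
  ∀ (Γ W : Type) (R : RS Γ W) (n : ℕ) (X Y : ℕ → Pay Γ) (m al be N : ℕ), Imm R n X Y →
    Hi X m al N → Hi Y m be N →
    (∀ i, N + 3 * 5 ^ m ≤ i → (i + al) % 5 ^ (m + 1) = 5 ^ m → (X i).pd = (X (i - 5 ^ m)).u.2) ∧
    (∀ j, N + 5 * 5 ^ m ≤ j → (j + be) % 5 ^ (m + 1) = 5 ^ m → (Y j).pd = (Y (j - 5 ^ m)).u.2)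

/-- **DL-ROW** (uses `S_LOCK`, `S_PD`, `S_COL` as hypotheses). Rows are compatible.

PROOF.  (0) pd-facts.  For every `m' ≤ m+1` (in fact we need `m' < m`) and all `i ≥ N + 3*5^m'` with
`(i + al) % 5^(m'+1) = 5^m'`: `(X i).pd = (X (i - 5^m')).u.2`: apply LOCK at level `m'` (`Hi` is inherited by smaller
levels) with `i0 = i - 3*5^m'` (so `(i0+al) % 5^(m'+1) = 3*5^m'`, since `1 - 3 ≡ 3 mod 5`), any `j0 ≥ N` with
`(j0+be) % 5^(m'+1) = 5^m'`, and `k = 0`.  For `Y`: `j ≥ N + 5*5^m'` with `(j+be) % 5^(m'+1) = 5^m'`: `j0 = j - 5*5^m'`.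
(1) First claim.  Let `(i+al) % 5^(m+2) = 2*5^(m+1)`, `(j+be) % 5^(m+1) = 3*5^m`, `i, j ≥ N' := N + 10*5^(m+1)`.  Apply LOCK at level
`m` with `i0 = i - 2*5^m - 5^(m+1)`, `j0 = j - 2*5^m - 5^(m+1)` (digits `3` and `1` at level `m`) and `k = 1`:
`p 0 = (X (i - 5^(m+1))).u = (m+1, 1)`, `p 1 = (X i).u = (m+1, 2)` (by `Hi X (m+1)`), so `pset m p 1 = upd m univ (m+1,1) = {0,1}`
and `pset m p 2 = upd m {0,1} (m+1,2) = {2}` (`decide` after generalising, `(m:ZMod 3)`).  Hence
`R.bad (wwin R n false X Y i j (5^m-1)).1 = false`.  By COL (with `i1 = i`, `j1 = j`, `g = false`; `(X i).u.2 = 2`, `(Y j).u.2 = 3`;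
the hypotheses of COL follow from `Hi` and (0), as `i + al`, `j + be` are multiples of `5^m`) this is `rowOK`.
(2) Second claim: `(j+be) % 5^(m+2) = 3*5^(m+1)`, `(i+al) % 5^(m+1) = 2*5^m`: LOCK at level `m` with
`i0 = i - 4*5^m - 5^(m+1)`, `j0 = j - 4*5^m - 5^(m+1)`, `k = 1`: `q 0 = (Y (j - 5^(m+1))).u = (m+1,2)`, `q 1 = (Y j).u = (m+1,3)`,
`pset m q 1 = upd m univ (m+1,2) = {0,2}`, `pset m q 2 = upd m {0,2} (m+1,3) = {3}`; then COL with `g = true`. -/
def S_ROW : Prop :=
  ∀ (Γ W : Type) (R : RS Γ W) (n : ℕ) (X Y : ℕ → Pay Γ) (m al be N : ℕ), Imm R n X Y →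
    Hi X (m + 1) al N → Hi Y (m + 1) be N → ∃ N', ∀ i j, N' ≤ i → N' ≤ j →
      ((i + al) % 5 ^ (m + 2) = 2 * 5 ^ (m + 1) → (j + be) % 5 ^ (m + 1) = 3 * 5 ^ m →
        rowOK R n m (fun l => (Y (j + 5 ^ l)).k) (fun l => (X (i + 5 ^ l)).k)) ∧
      ((j + be) % 5 ^ (m + 2) = 3 * 5 ^ (m + 1) → (i + al) % 5 ^ (m + 1) = 2 * 5 ^ m →
        rowOK R n m (fun l => (X (i + 5 ^ l)).k) (fun l => (Y (j + 5 ^ l)).k))

/-- **DL-TIL** (uses `S_STEP`, `S_ROW`). An immortal pair gives a valid array.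

PROOF.  Take `al be N` from STEP, and `N' m` from ROW for `m` (with `al (m+1)`, `be (m+1)`, `N (m+1)`).  For every `m` choose
`e m ≥ max (N' m) (N' (m-1))` with `(e m + al m) % 5^(m+1) = 2*5^m` if `m` is even, and `(e m + be m) % 5^(m+1) = 3*5^m` if
`m` is odd.  By the compatibility `al (m+1) ≡ al m mod 5^(m+1)` the same congruences hold with `al (m+1)`, `be (m+1)`.
Let `c m l = (X (e m + 5^l)).k` for `m` even, `(Y (e m + 5^l)).k` for `m` odd.  `rowOK R n m (c m) (c (m+1))`: `m` even: second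
claim of ROW with `i = e m`, `j = e (m+1)`; `m` odd: first claim with `j = e m`, `i = e (m+1)`. -/
def S_TIL : Prop :=
  ∀ (Γ W : Type) (R : RS Γ W) (n : ℕ) (X Y : ℕ → Pay Γ), Imm R n X Y → Tiled R n

/-! ## G. Soundness -/

/-- **DL-CAN.** Facts on the canonical word (arithmetic of `lv`, `dg`, `pr`, see `Basic.lean`).

(1) For `0 < t < 5^m` the letters `u` at `5^m*A + t` and `5^m*B + t` are `(l, r)` if `t % 5^(l+1) = r*5^l`, `0 < r < 5`.
(2) For `l < m`, `t < 5^m`, `t % 5^(l+1) = 5^l`, `0 < A`: `pd` at `5^m*A + t` is the digit `.u.2` at `5^m*A + t - 5^l`.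
(3) for `l < m`, `0 < A`: the content at `5^m*A + 5^l` is `c (m + lv A) l`.
(4) For `0 < A`, `A % 5 ≠ 0`: `(can c (5^m*A)).u = (m, A)`.
(5) For `0 < A`, `(can c (5^m*A)).u = (m + lv A, dg A)`.
PROOF.  `5^m*A + t` has the same lowest nonzero digit as `t`; `pr (5^m*A+t) = 5^m*A + pr t`, and `pr t = t - 5^l` if
`t % 5^(l+1) = 5^l`; it is positive when `0 < A`. -/
def S_CAN : Prop :=
  ∀ (Γ : Type) (c : ℕ → ℕ → Γ) (m A : ℕ),
    (∀ t, 0 < t → t < 5 ^ m → ∀ l r : ℕ, 0 < r → r < 5 → t % 5 ^ (l + 1) = r * 5 ^ l →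
      (can c (5 ^ m * A + t)).u = ((l : ZMod 3), (r : ZMod 5))) ∧
    (0 < A → ∀ l, l < m → ∀ t, t < 5 ^ m → t % 5 ^ (l + 1) = 5 ^ l →
      (can c (5 ^ m * A + t)).pd = (can c (5 ^ m * A + t - 5 ^ l)).u.2) ∧
    (0 < A → ∀ l, l < m → (can c (5 ^ m * A + 5 ^ l)).k = c (m + lv A) l) ∧
    (0 < A → (can c (5 ^ m * A)).u = (((m + lv A : ℕ) : ZMod 3), (dg A : ZMod 5))) ∧
    (A % 5 ≠ 0 → (can c (5 ^ m * A)).u = ((m : ZMod 3), (A : ZMod 5)))

/-- The invariant of the checker on the canonical word: `a`, `b` are the addresses of the last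
processed pair, `m` the 5-adic valuation of `a - b`; `A = a / 5^m`, `B = b / 5^m`, `om = a % 5^m`. -/
def Inv {Γ W : Type} (R : RS Γ W) (n : ℕ) (c : ℕ → ℕ → Γ) (m A B om : ℕ) (i : Fin (n + 2)) :
    DS W → Prop
  | .idle => True
  | .s1 l P Q =>
      (P = Finset.univ ∧ Q = Finset.univ ∧
        ((A % 5 = 0 ∧ B % 5 = 1) ∨ (A % 5 = 3 ∧ B % 5 = 0))) ∨
      (l = (m : ZMod 3) ∧ A % 5 = 3 ∧ B % 5 = 1 ∧
        ((A / 5 : ℕ) : ZMod 5) ∈ P ∧ ((B / 5 : ℕ) : ZMod 5) ∈ Q)
  | .s2 l P Q => l = (m : ZMod 3) ∧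
      ((A % 5 = 4 ∧ B % 5 = 2 ∧ ((A / 5 : ℕ) : ZMod 5) ∈ P ∧ ((B / 5 : ℕ) : ZMod 5) ∈ Q) ∨
       (0 < A ∧ A % 5 = 0 ∧ B % 5 = 3 ∧ (can c (5 ^ m * A)).u = ((m : ZMod 3), 3) ∧
        ((A / 5 : ℕ) : ZMod 5) - 1 ∈ P ∧ ((B / 5 : ℕ) : ZMod 5) ∈ Q))
  | .s3 l P Q z w => l = (m : ZMod 3) ∧ 0 < A ∧ A % 5 = 0 ∧ B % 5 = 3 ∧
      ((A / 5 : ℕ) : ZMod 5) ∈ P ∧ ((B / 5 : ℕ) : ZMod 5) ∈ Q ∧ z = (can c (5 ^ m * A)).u.2 ∧
      ∀ w', w = some w' → P = {2} ∧
        (w', i) = wwin R n false (can c) (can c) (5 ^ m * A) (5 ^ m * B) om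
  | .s4 l P Q => l = (m : ZMod 3) ∧
      ((A % 5 = 1 ∧ B % 5 = 4 ∧ ((A / 5 : ℕ) : ZMod 5) ∈ P ∧ ((B / 5 : ℕ) : ZMod 5) ∈ Q) ∨
       (0 < B ∧ A % 5 = 2 ∧ B % 5 = 0 ∧ (can c (5 ^ m * B)).u = ((m : ZMod 3), 2) ∧
        ((A / 5 : ℕ) : ZMod 5) ∈ P ∧ ((B / 5 : ℕ) : ZMod 5) - 1 ∈ Q))
  | .s5 l P Q z w => l = (m : ZMod 3) ∧ 0 < B ∧ A % 5 = 2 ∧ B % 5 = 0 ∧
      ((A / 5 : ℕ) : ZMod 5) ∈ P ∧ ((B / 5 : ℕ) : ZMod 5) ∈ Q ∧ z = (can c (5 ^ m * B)).u.2 ∧
      ∀ w', w = some w' → Q = {3} ∧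
        (w', i) = wwin R n true (can c) (can c) (5 ^ m * A) (5 ^ m * B) om

/-- **DL-INV1** (uses `S_CAN`). The invariant is preserved by invisible pairs.

PROOF.  `0 < om + 1 < 5^m`: by CAN (1) the letters `u` at `5^m*A+om+1` and `5^m*B+om+1` agree, so the step
is `istep`, which never fails; only `s3`/`s5` with an active window change: exactly as `wwin` (definition of `wwin` at
`om + 1`).  (If the window is inactive or the state is another one, `Inv` does not depend on `om` and `i`.) -/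
def S_INV1 : Prop :=
  ∀ (Γ W : Type) (R : RS Γ W) (n : ℕ) (c : ℕ → ℕ → Γ) (m A B om : ℕ) (i : Fin (n + 2)) (d : DS W),
    Inv R n c m A B om i d → om + 1 < 5 ^ m →
    ∃ d' i', dn R n (some (d, i)) (can c (5 ^ m * A + (om + 1))) (can c (5 ^ m * B + (om + 1))) =
      some (d', i') ∧ Inv R n c m A B (om + 1) i' d'

/-- **DL-INV2** (uses `S_CAN`, `S_COL`). The invariant is preserved by pairs at level `≥ m`.

Setting: `A % 5 ≠ B % 5`; the next pair is `(can c (5^m*(A+1)), can c (5^m*(B+1)))`, `om = 5^m - 1` before, `0` after.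
PROOF.  Let `A' = A+1`, `B' = B+1`, `x`, `y` the payloads at `5^m*A'`, `5^m*B'`, `lam = m`.  `A' % 5 ≠ B' % 5`, and by CAN (4):
`x.u = (lam, A')` if `A' % 5 ≠ 0`, `y.u = (lam, B')` if `B' % 5 ≠ 0`; not both are `0`.  If both are nonzero the pair is
visible.  Note `(A'/5 : ℕ) = A/5` unless `A' % 5 = 0`, when it is `A/5 + 1`.
Cases for `d` (before):
* `idle`: if `x.u = y.u` the state stays `idle`.  Else `resync`: it is `idle`, or `x.u = (l,3)`, `y.u = (l,1)`.  In the latter
  case: both digits nonzero: `A' % 5 = 3`, `B' % 5 = 1`, `l = lam`: genuine (`P = Q = univ`).  `A' % 5 = 0`: `y.u = (lam,B')`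
  gives `B' % 5 = 1`: first fake case.  `B' % 5 = 0`: `x.u = (lam, A')` gives `A' % 5 = 3`: second fake case.
* `s1` fake, `A%5=0,B%5=1`: `A'%5=1,B'%5=2`: `x.u = (lam,1)`, `y.u = (lam,2)`: visible, `x.u ≠ (l,4)`; `resync` is `idle` (`x.u.2 ≠ 3`).
  `A%5=3,B%5=0`: `A'%5=4,B'%5=1`: `y.u.2 = 1 ≠ 2`; `resync`: `x.u.2 = 4 ≠ 3`: `idle`.
* `s1` genuine: `A'%5=4,B'%5=2`: `s2 lam P Q`, first case (`A'/5 = A/5`, `B'/5 = B/5`).
* `s2`, first case (`A%5=4,B%5=2`): `A'%5=0`, `B'%5=3`, `y.u=(lam,3)`.  If `x.u = (lam,3)`: invisible, `istep` keeps `s2`: second case,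
  `(A'/5) - 1 = A/5 ∈ P`.  Else visible: `y.u = (lam,3)`; `A'/5 ∈ upd lam P x.u`: its predecessor `A/5 ∈ P`, and either
  `(A'/5 : ZMod 5) = 0` or `A'/5 ≢ 0 mod 5` and by CAN (5) `x.u = (m+1, A'/5)` (`A' = 5*(A'/5)`, `lv A' = 1`, `dg A' = (A'/5)%5`).  So the
  set is nonempty; new state `s3`, window `some R.w0` only if the set is `{2}`; `wwin .. 0 = (R.w0, 0)` and the
  new counter is `0`.
* `s2`, second case (`A%5=0,B%5=3`): `A'%5=1,B'%5=4`: `x.u=(lam,1),y.u=(lam,4)`: visible, `y.u ≠ (lam,3)`, second branch.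
  `A/5 ∈ upd lam P (lam,3)`: `A/5 - 1 ∈ P`, and `(A/5 : ZMod 5) = 0` because otherwise `(can (5^m*A)).u = (m+1, _) ≠ (m,3)`.
  `x.pd = 3`: by CAN (2) at level `m` [apply CAN with `m+1` instead of `m` and `t = 5^m`, or directly: parent of
  `5^m*(A+1)` is `5^m*A`, as `(A+1)%5=1`]: `x.pd = (can c (5^m*A)).u.2 = 3`.  New state `s4` first case.
* `s3` (`A%5=0,B%5=3`): next `x.u=(lam,1),y.u=(lam,4)`, visible.  `x.pd = (can c (5^m*A)).u.2 = z`.  Window: if `w = some w'` then
  `P = {2}`, so `(A/5 : ZMod 5) = 2`, `lv A = 1`, `dg A = 2`, and `w' = (wwin .. (5^m-1)).1` equals by COL and CAN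
  `wrun R n (c m) (c (m+1)) m` (up to agreement of the rows on the columns `< m`), so it is not bad.  New state `s4` first case.
* `s4` (both cases) and `s5` are symmetric (roles of `X`, `Y` exchanged): `s4` first case: `A'%5=2,B'%5=0`, `x.u=(lam,2)`, `y.u` arbitrary;
  `s4` second case: `A'%5=3,B'%5=1`, `y.pd = (can c (5^m*B)).u.2 = 2`, new state `s1` genuine; `s5`: same with the window:
  `Q = {3}`, `lv B = 1`, `dg B = 3`, low row on `X`: `A%5=2`, so `lv A = 0`, content rows `c m` (on `X`) and `c (m+1)` (on `Y`). -/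
def S_INV2 : Prop :=
  ∀ (Γ W : Type) (R : RS Γ W) (n : ℕ) (c : ℕ → ℕ → Γ) (m A B : ℕ) (i : Fin (n + 2)) (d : DS W),
    (∀ m, rowOK R n m (c m) (c (m + 1))) → A % 5 ≠ B % 5 →
    Inv R n c m A B (5 ^ m - 1) i d →
    ∃ d' i', dn R n (some (d, i)) (can c (5 ^ m * (A + 1))) (can c (5 ^ m * (B + 1))) =
      some (d', i') ∧ Inv R n c m (A + 1) (B + 1) 0 i' d'

/-- The conclusion of DL-INV2 for one state. -/
def InvNext {Γ W : Type} (R : RS Γ W) (n : ℕ) (c : ℕ → ℕ → Γ) (m A B : ℕ) (i : Fin (n + 2)) (d : DS W) : Prop :=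
  ∃ d' i', dn R n (some (d, i)) (can c (5 ^ m * (A + 1))) (can c (5 ^ m * (B + 1))) =
      some (d', i') ∧ Inv R n c m (A + 1) (B + 1) 0 i' d'

/-- **DL-INV2a** (uses `S_CAN`): the cases `idle` and `s1` of DL-INV2. -/
def S_INV2a : Prop :=
  ∀ (Γ W : Type) (R : RS Γ W) (n : ℕ) (c : ℕ → ℕ → Γ) (m A B : ℕ) (i : Fin (n + 2)),
    A % 5 ≠ B % 5 → InvNext R n c m A B i .idle ∧
    ∀ l P Q, Inv R n c m A B (5 ^ m - 1) i (.s1 l P Q) → InvNext R n c m A B i (.s1 l P Q)

/-- **DL-INV2b** (uses `S_CAN`): the case `s2` of DL-INV2. -/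
def S_INV2b : Prop :=
  ∀ (Γ W : Type) (R : RS Γ W) (n : ℕ) (c : ℕ → ℕ → Γ) (m A B : ℕ) (i : Fin (n + 2)),
    ∀ l P Q, Inv R n c m A B (5 ^ m - 1) i (.s2 l P Q) → InvNext R n c m A B i (.s2 l P Q)

/-- **DL-INV2c** (uses `S_CAN`, `S_COL`): the case `s3` of DL-INV2. -/
def S_INV2c : Prop :=
  ∀ (Γ W : Type) (R : RS Γ W) (n : ℕ) (c : ℕ → ℕ → Γ) (m A B : ℕ) (i : Fin (n + 2)),
    (∀ m, rowOK R n m (c m) (c (m + 1))) →
    ∀ l P Q z w, Inv R n c m A B (5 ^ m - 1) i (.s3 l P Q z w) →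
      InvNext R n c m A B i (.s3 l P Q z w)

/-- **DL-INV2d** (uses `S_CAN`): the case `s4` of DL-INV2. -/
def S_INV2d : Prop :=
  ∀ (Γ W : Type) (R : RS Γ W) (n : ℕ) (c : ℕ → ℕ → Γ) (m A B : ℕ) (i : Fin (n + 2)),
    ∀ l P Q, Inv R n c m A B (5 ^ m - 1) i (.s4 l P Q) → InvNext R n c m A B i (.s4 l P Q)

/-- **DL-INV2e** (uses `S_CAN`, `S_COL`): the case `s5` of DL-INV2. -/
def S_INV2e : Prop :=
  ∀ (Γ W : Type) (R : RS Γ W) (n : ℕ) (c : ℕ → ℕ → Γ) (m A B : ℕ) (i : Fin (n + 2)),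
    (∀ m, rowOK R n m (c m) (c (m + 1))) →
    ∀ l P Q z w, Inv R n c m A B (5 ^ m - 1) i (.s5 l P Q z w) →
      InvNext R n c m A B i (.s5 l P Q z w)

theorem inv2_of (ha : S_INV2a) (hb : S_INV2b) (hc : S_INV2c) (hd : S_INV2d) (he : S_INV2e) :
    S_INV2 := by
  intro Γ W R n c m A B i d hc' hAB hI
  cases d with
  | idle => exact (ha Γ W R n c m A B i hAB).1
  | s1 l P Q => exact (ha Γ W R n c m A B i hAB).2 l P Q hI
  | s2 l P Q => exact hb Γ W R n c m A B i l P Q hI
  | s3 l P Q z w => exact hc Γ W R n c m A B i hc' l P Q z w hI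
  | s4 l P Q => exact hd Γ W R n c m A B i l P Q hI
  | s5 l P Q z w => exact he Γ W R n c m A B i hc' l P Q z w hI

/-- **DL-NF** (uses `S_INV1`, `S_INV2`). The canonical word gives an immortal pair.

PROOF.  Let `c` be the array of `Tiled`, `Z = can c`, `X = Y = fun i => Z (i+1)`.  `phx`: clear.  `lx`: if `(a : ZMod 5) ≠ 0` then
`a % 5 ≠ 0`, `lv a = 0`, `dg a = a % 5`.  `nf`: `drun R n X Y i j t` reads the addresses `i+1+t'`, `j+1+t'`, `t' < t`.
If `i = j`: all pairs are invisible and the state stays `(idle, 0)`.  If `i ≠ j` let `m` be the 5-adic valuation of `|i - j|`; for all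
`t'`: with `a = i+1+t'`, `b = j+1+t'`: `a % 5^m = b % 5^m` and `(a/5^m) % 5 ≠ (b/5^m) % 5`.  Claim: for all `t`,
`drun = some (d, i')` with (`t = 0`, `d = idle`) or `Inv R n c m (a/5^m) (b/5^m) (a % 5^m) i' d` for the last processed `a`, `b`.
Step: if the next address `a+1` is not a multiple of `5^m` use INV1, else INV2 (`a % 5^m = 5^m - 1`).  For `t = 0`
use `Inv ... idle = True` for the addresses `i`, `j` (`a = i`, `b = j`: also allowed to be `0`), so no special treatment is needed. -/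
def S_NF : Prop :=
  ∀ (Γ W : Type) (R : RS Γ W) (n : ℕ), Tiled R n → ∃ X Y : ℕ → Pay Γ, Imm R n X Y

/-! ## M. A row system with undecidable tiling problem -/

/-- **DL-M.** (proof: see `Mch.lean`.) -/
def S_M : Prop :=
  ∃ (Γ W : Type) (_ : Finite Γ) (_ : Finite W) (R : RS Γ W),
    ¬ ComputablePred fun n : ℕ => ¬ Tiled R n

/-! ## K. Codes -/

/-- One step of a finite control `B` with a saturating counter. -/
def gstep {B : Type} {k : ℕ} (g : Bool → B → Fin k → Option (B × Act)) (n : ℕ)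
    (s : Option (B × Fin (n + 2))) (a : Fin k) : Option (B × Fin (n + 2)) :=
  s.bind fun t => (g (decide (t.2.val = n)) t.1 a).map fun r => (r.1, act n r.2 t.2)

/-- **DL-K.** The transition tables of these automata are computable from `n`.

PROOF.  Let `e : B ≃ Fin s` with `e b0 = 0` (`s > 0`); add one more state `s` for `none`: put `s' = s + 1`.
Number the state `some (b, i)` by `i * s' + e b`, the state `none` by all numbers `i * s' + s`
(`i < n + 2`).  The initial state `some (b0, 0)` is `0`.  Let `F : Fin s' × Fin k × Bool → Fin s' × Fin 3` be the finite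
function describing `g` (`F (s, a, f) = (s, 0)`, `F (e b, a, f) = (s, 0)` if `g f b a = none`, `F (e b, a, f) = (e b', code of the
action)` if `g f b a = some (b', act)`).  The table: row number `x < (n+2) * s'`, column `a < k`: with `b = x % s'`,
`i = x / s'`, `(b', h) = F (b, a, i = n)`: entry `i' * s' + b'` with `i' = 0, i, min (i+1) (n+1)` for `h = 0, 1, 2`.
The accepting list is `(List.range (n+2)).map fun i => i * s' + s`.  Computability: `F` is a constant finite table
(a constant `List ℕ` used with `List.getD` at the index `(b * k + a) * 2 + f`), everything else is `List.map`, `List.range`,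
`+, *, /, %, min` and comparison of numbers: `Primrec` (`Primrec.list_map`, `Primrec.list_range`, `Primrec.list_getD`,
`Primrec.nat_div`, `Primrec.nat_mod`, `Primrec.ite`, ...), hence `Computable`.  Correctness: by induction on `w` (generalising the state) the
number reached is a number of the state reached (relation: `x < (n+2)*s'`, `x % s' = e b`, `x / s' = i`, or
`x % s' = s` for `none`). -/
def S_K : Prop :=
  ∀ (B : Type) [Finite B] (b0 : B) (k : ℕ) (g : Bool → B → Fin k → Option (B × Act)),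
    ∃ code : ℕ → List (List ℕ) × List ℕ, Computable code ∧
      ∀ (n : ℕ) (w : List (Fin k)),
        w.foldl (fun q a => ((code n).1.getD q []).getD (a : ℕ) 0) 0 ∈ (code n).2 ↔
          w.foldl (gstep g n) (some (b0, 0)) = none

/-- One table entry: `L` is the constant table of the control (entries `b' * 3 + h`). -/
def tabE (L : List ℕ) (s' k n x a : ℕ) : ℕ :=
  (if L.getD ((x % s' * k + a) * 2 + (if x / s' = n then 1 else 0)) 0 % 3 = 0 then 0
    else if L.getD ((x % s' * k + a) * 2 + (if x / s' = n then 1 else 0)) 0 % 3 = 1 then x / s'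
    else min (x / s' + 1) (n + 1)) * s' +
    L.getD ((x % s' * k + a) * 2 + (if x / s' = n then 1 else 0)) 0 / 3

/-- The code of the automaton. -/
def codeOf (L : List ℕ) (s' k n : ℕ) : List (List ℕ) × List ℕ :=
  ((List.range ((n + 2) * s')).map fun x => (List.range k).map fun a => tabE L s' k n x a,
    (List.range (n + 2)).map fun i => i * s' + (s' - 1))

/-- **DL-K1.** Computability of the code (`L`, `s'`, `k` fixed). -/
def S_K1 : Prop := ∀ (L : List ℕ) (s' k : ℕ), Computable (codeOf L s' k)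

/-- **DL-K2.** Correctness of the code (see the proof of DL-K; `s' = s + 1`). -/
def S_K2 : Prop :=
  ∀ (B : Type) [Finite B] (b0 : B) (k : ℕ) (g : Bool → B → Fin k → Option (B × Act)),
    ∃ (L : List ℕ) (s' : ℕ), ∀ (n : ℕ) (w : List (Fin k)),
        w.foldl (fun q a => ((codeOf L s' k n).1.getD q []).getD (a : ℕ) 0) 0 ∈ (codeOf L s' k n).2 ↔
          w.foldl (gstep g n) (some (b0, 0)) = none

theorem k_of (h1 : S_K1) (h2 : S_K2) : S_K := by
  intro B _ b0 k g
  obtain ⟨L, s', h⟩ := h2 B b0 k g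
  exact ⟨codeOf L s' k, h1 L s' k, h⟩

end Pool.Agent.H724.DL
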